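import Pool.Agent.Lib.MP_305fdd_al.To.CC.Cnc
import Pool.Agent.Lib.MP_305fdd_al.To.N.Disc

/-!
# MP_305fdd_al, torsion room, block CC: cocompactness

`coc`: the image of the representation of a chart datum is cocompact.
-/

set_option autoImplicit false

namespace Pool.Agent.ToCC

open Pool.Agent.Su Pool.Agent.ToC

variable {g : ℕ}

/-- the square of the euclidean norm -/
def nq (v : Fin 2 → ℝ) : ℝ := v 0 ^ 2 + v 1 ^ 2

theorem nq_smul (a : ℝ) (v : Fin 2 → ℝ) : nq (a • v) = a ^ 2 * nq v := by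
  simp only [nq, Pi.smul_apply, smul_eq_mul]
  ring

theorem nq_le (v : Fin 2 → ℝ) : nq v ≤ 2 * ‖v‖ ^ 2 := by
  have h0 := norm_le_pi_norm v 0
  have h1 := norm_le_pi_norm v 1
  rw [Real.norm_eq_abs] at h0 h1
  have a0 : v 0 ^ 2 ≤ ‖v‖ ^ 2 := by
    rw [← sq_abs]
    exact pow_le_pow_left₀ (abs_nonneg _) h0 2
  have a1 : v 1 ^ 2 ≤ ‖v‖ ^ 2 := by
    rw [← sq_abs]
    exact pow_le_pow_left₀ (abs_nonneg _) h1 2
  rw [nq]
  linarith

theorem nq_nonneg (v : Fin 2 → ℝ) : 0 ≤ nq v := by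
  rw [nq]
  positivity

theorem continuous_nq : Continuous nq := by
  unfold nq
  fun_prop

theorem continuous_ac (M : Matrix.SpecialLinearGroup (Fin 2) ℝ) :
    Continuous fun v : Fin 2 → ℝ => ac M v := by
  unfold ac
  exact Continuous.matrix_mulVec continuous_const continuous_id

/-- no invariant lower bound for parallel pairs -/
theorem no_par (D : Dat NN g) (hg : 2 ≤ g) {p q : Fin 2 → ℝ} (h : dt p q = 0) {c : ℝ}
    (hc : 0 < c) : ∃ y : SurfaceGroup g, nq (ac (D.rho y) p) + nq (ac (D.rho y) q) < c := by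
  obtain ⟨u, a, b, rfl, rfl⟩ : ∃ (u : Fin 2 → ℝ) (a b : ℝ), p = a • u ∧ q = b • u := by
    by_cases hp : p = 0
    · exact ⟨q, 0, 1, by rw [hp, zero_smul], by rw [one_smul]⟩
    · have h1 : p 0 ≠ 0 ∨ p 1 ≠ 0 := by
        by_contra h2
        push Not at h2
        apply hp
        funext i
        fin_cases i
        · exact h2.1
        · exact h2.2
      simp only [dt] at h
      rcases h1 with h1 | h1
      · refine ⟨p, 1, q 0 / p 0, by rw [one_smul], ?_⟩
        funext i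
        fin_cases i
        · simp only [Fin.zero_eta, Fin.isValue, Pi.smul_apply, smul_eq_mul]
          field_simp
        · simp only [Fin.mk_one, Fin.isValue, Pi.smul_apply, smul_eq_mul]
          field_simp
          linarith
      · refine ⟨p, 1, q 1 / p 1, by rw [one_smul], ?_⟩
        funext i
        fin_cases i
        · simp only [Fin.zero_eta, Fin.isValue, Pi.smul_apply, smul_eq_mul]
          field_simp
          linarith
        · simp only [Fin.mk_one, Fin.isValue, Pi.smul_apply, smul_eq_mul]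
          field_simp
  have hK : 0 < 2 * (a ^ 2 + b ^ 2) + 1 := by positivity
  have hε : 0 < min 1 (c / (2 * (a ^ 2 + b ^ 2) + 1)) := lt_min one_pos (div_pos hc hK)
  obtain ⟨y, hy⟩ := conical D hg (u := u) hε
  refine ⟨y, ?_⟩
  have h1 := nq_le (ac (D.rho y) u)
  have h2 : ‖ac (D.rho y) u‖ < 1 := lt_of_lt_of_le hy (min_le_left _ _)
  have h3 : ‖ac (D.rho y) u‖ < c / (2 * (a ^ 2 + b ^ 2) + 1) := lt_of_lt_of_le hy (min_le_right _ _)
  rw [lt_div_iff₀ hK] at h3
  rw [ac_smul, ac_smul, nq_smul, nq_smul]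
  have h4 : ‖ac (D.rho y) u‖ ^ 2 ≤ ‖ac (D.rho y) u‖ := by
    have := norm_nonneg (ac (D.rho y) u)
    nlinarith
  have h5 : 0 ≤ a ^ 2 + b ^ 2 := by positivity
  calc a ^ 2 * nq (ac (D.rho y) u) + b ^ 2 * nq (ac (D.rho y) u)
      = (a ^ 2 + b ^ 2) * nq (ac (D.rho y) u) := by ring
    _ ≤ (a ^ 2 + b ^ 2) * (2 * ‖ac (D.rho y) u‖) :=
        mul_le_mul_of_nonneg_left (h1.trans (by linarith)) h5
    _ ≤ ‖ac (D.rho y) u‖ * (2 * (a ^ 2 + b ^ 2) + 1) := by
        have := norm_nonneg (ac (D.rho y) u)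
        nlinarith
    _ < c := h3

/-- nearly minimal normalised frames have large determinant -/
theorem exists_det (D : Dat NN g) (hg : 2 ≤ g) : ∃ δ : ℝ, 0 < δ ∧ ∀ p q : Fin 2 → ℝ,
    nq p + nq q = 1 → (∀ y : SurfaceGroup g, 1 / 2 ≤ nq (ac (D.rho y) p) + nq (ac (D.rho y) q)) →
    δ ≤ |dt p q| := by
  set F : Set ((Fin 2 → ℝ) × (Fin 2 → ℝ)) := {z | nq z.1 + nq z.2 = 1} ∩
    ⋂ y : SurfaceGroup g, {z | 1 / 2 ≤ nq (ac (D.rho y) z.1) + nq (ac (D.rho y) z.2)} with hF
  have hmem : ∀ p q : Fin 2 → ℝ, nq p + nq q = 1 →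
      (∀ y : SurfaceGroup g, 1 / 2 ≤ nq (ac (D.rho y) p) + nq (ac (D.rho y) q)) → (p, q) ∈ F :=
    fun p q h1 h2 => ⟨h1, Set.mem_iInter.2 h2⟩
  have hcl : IsClosed F := by
    refine IsClosed.inter (isClosed_eq ?_ continuous_const) (isClosed_iInter fun y => ?_)
    · exact (continuous_nq.comp continuous_fst).add (continuous_nq.comp continuous_snd)
    · exact isClosed_le continuous_const
        ((continuous_nq.comp ((continuous_ac _).comp continuous_fst)).add
          (continuous_nq.comp ((continuous_ac _).comp continuous_snd)))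
  have hsq : ∀ v : Fin 2 → ℝ, nq v ≤ 1 → ‖v‖ ≤ 1 := by
    intro v hv
    rw [pi_norm_le_iff_of_nonneg zero_le_one]
    intro i
    rw [Real.norm_eq_abs]
    apply (sq_le_one_iff_abs_le_one _).1
    rw [nq] at hv
    fin_cases i
    · change v 0 ^ 2 ≤ 1
      nlinarith [sq_nonneg (v 1)]
    · change v 1 ^ 2 ≤ 1
      nlinarith [sq_nonneg (v 0)]
  have hbd : F ⊆ Metric.closedBall 0 1 := by
    rintro ⟨p, q⟩ ⟨h1, -⟩
    have h1' : nq p + nq q = 1 := h1
    rw [mem_closedBall_zero_iff, Prod.norm_def, max_le_iff]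
    exact ⟨hsq p (by linarith [nq_nonneg q]), hsq q (by linarith [nq_nonneg p])⟩
  have hK : IsCompact F := (isCompact_closedBall 0 1).of_isClosed_subset hcl hbd
  rcases F.eq_empty_or_nonempty with h0 | hne
  · refine ⟨1, one_pos, fun p q h1 h2 => ?_⟩
    have := hmem p q h1 h2
    rw [h0] at this
    exact absurd this (Set.notMem_empty _)
  · obtain ⟨⟨p₀, q₀⟩, h1, h2⟩ := hK.exists_isMinOn hne
      (f := fun z : (Fin 2 → ℝ) × (Fin 2 → ℝ) => |dt z.1 z.2|) (by
        refine Continuous.continuousOn ?_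
        unfold dt
        fun_prop)
    refine ⟨|dt p₀ q₀|, ?_, fun p q h3 h4 => h2 (hmem p q h3 h4)⟩
    rw [abs_pos]
    intro h3
    obtain ⟨y, hy⟩ := no_par D hg h3 (show (0 : ℝ) < 1 / 2 by norm_num)
    have h4 := Set.mem_iInter.1 h1.2 y
    change 1 / 2 ≤ nq (ac (D.rho y) p₀) + nq (ac (D.rho y) q₀) at h4
    linarith

/-- the columns of a matrix -/
def col (M : Matrix.SpecialLinearGroup (Fin 2) ℝ) (j : Fin 2) : Fin 2 → ℝ := fun i => M.1 i j

theorem col_mul (M N : Matrix.SpecialLinearGroup (Fin 2) ℝ) (j : Fin 2) :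
    col (M * N) j = ac M (col N j) := by
  funext i
  rfl

theorem col_dt (M : Matrix.SpecialLinearGroup (Fin 2) ℝ) : dt (col M 0) (col M 1) = 1 := by
  have h := M.2
  rw [Matrix.det_fin_two] at h
  simp only [dt, col]
  linarith

theorem two_le_nq {p q : Fin 2 → ℝ} (h : dt p q = 1) : 2 ≤ nq p + nq q := by
  simp only [dt] at h
  simp only [nq]
  nlinarith [sq_nonneg (p 0 - q 1), sq_nonneg (p 1 + q 0)]

/-- THEOREM: the image of the representation of a chart datum is cocompact -/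
theorem coc_mat (D : Dat NN g) (hg : 2 ≤ g) : ∃ C : ℝ, ∀ h : Matrix.SpecialLinearGroup (Fin 2) ℝ,
    ∃ x : SurfaceGroup g, ∀ i j, |(D.rho x * h).1 i j| ≤ C := by
  obtain ⟨δ, hδ, h1⟩ := exists_det D hg
  refine ⟨Real.sqrt (1 / δ), fun h => ?_⟩
  set f : SurfaceGroup g → ℝ := fun x => nq (col (D.rho x * h) 0) + nq (col (D.rho x * h) 1)
    with hf
  have hf2 : ∀ x, 2 ≤ f x := fun x => two_le_nq (col_dt _)
  have hbd : BddBelow (Set.range f) := ⟨2, by rintro _ ⟨x, rfl⟩; exact hf2 x⟩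
  have hinf : 2 ≤ ⨅ x, f x := le_ciInf hf2
  obtain ⟨x, hx⟩ := exists_lt_of_ciInf_lt (show ⨅ x, f x < 2 * ⨅ x, f x by linarith)
  have hx' : ∀ y, f x ≤ 2 * f y := fun y => by
    have := ciInf_le hbd y
    linarith
  have hN : 0 < f x := by linarith [hf2 x]
  refine ⟨x, ?_⟩
  set s := Real.sqrt (f x) with hs
  have hs0 : 0 < s := Real.sqrt_pos.2 hN
  have hss : s ^ 2 = f x := Real.sq_sqrt hN.le
  have h2 := h1 (s⁻¹ • col (D.rho x * h) 0) (s⁻¹ • col (D.rho x * h) 1) (by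
      rw [nq_smul, nq_smul, ← mul_add, inv_pow, hss]
      exact inv_mul_cancel₀ hN.ne') (by
      intro y
      have h3 := hx' (y * x)
      have h4 : f (y * x) = nq (ac (D.rho y) (col (D.rho x * h) 0)) +
          nq (ac (D.rho y) (col (D.rho x * h) 1)) := by
        simp only [hf]
        rw [map_mul, mul_assoc, col_mul (D.rho y), col_mul (D.rho y)]
      rw [h4] at h3
      rw [ac_smul, ac_smul, nq_smul, nq_smul, ← mul_add, inv_pow, hss, inv_mul_eq_div,
        div_le_div_iff₀ two_pos hN]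
      linarith)
  rw [dt_smul_left, dt_smul_right, col_dt, mul_one, ← sq, inv_pow, hss, abs_of_pos (inv_pos.2 hN)]
    at h2
  have h3 : f x ≤ 1 / δ := by
    rw [le_div_iff₀ hδ]
    have := mul_le_mul_of_nonneg_left h2 hN.le
    rwa [mul_inv_cancel₀ hN.ne'] at this
  intro i j
  apply Real.le_sqrt_of_sq_le
  rw [sq_abs]
  refine le_trans ?_ h3
  simp only [hf, nq, col]
  fin_cases i <;> fin_cases j <;> simp only [Fin.zero_eta, Fin.mk_one, Fin.isValue] <;> nlinarith [
    sq_nonneg ((D.rho x * h).1 0 0), sq_nonneg ((D.rho x * h).1 1 0),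
    sq_nonneg ((D.rho x * h).1 0 1), sq_nonneg ((D.rho x * h).1 1 1)]

/-- the image in `PSL(2, ℝ)` of the representation of a chart datum is cocompact -/
theorem coc (D : Dat NN g) (hg : 2 ≤ g) : ToN.Coc (ToN.pr.comp D.rho) := by
  obtain ⟨C, hC⟩ := coc_mat D hg
  refine ⟨C, fun h => ?_⟩
  obtain ⟨x, hx⟩ := hC h
  exact ⟨x, D.rho x, rfl, hx⟩

end Pool.Agent.ToCC
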