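import Pool.Agent.Lib.MP_305fdd_al.To.CC.Defs
import Pool.Agent.Lib.MP_305fdd_al.To.Ch.MidT
import Pool.Agent.Lib.MP_305fdd_al.To.ST.PSLDisc

/-!
# MP_305fdd_al, torsion, block CC: the representation of a chart datum is discrete
-/

set_option autoImplicit false

namespace Pool.Agent.ToCC

open Pool.Agent.ToN Pool.Agent.ToC Pool.Agent.Su Matrix

/-- positivity of a determinant near the identity -/
theorem near_pos {u v : Fin 2 → ℝ} (h : 0 < dt u v) : ∃ ε : ℝ, 0 < ε ∧ ∀ A : SLR,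
    (∀ i j, |A.1 i j - (1 : Matrix (Fin 2) (Fin 2) ℝ) i j| < ε) → 0 < dt u (ac A v) := by
  set K : ℝ := (|u 0| + |u 1|) * (|v 0| + |v 1|) with hK
  have hK0 : 0 ≤ K := by positivity
  refine ⟨dt u v / (K + 1), by positivity, fun A hA => ?_⟩
  set ε : ℝ := dt u v / (K + 1) with hε
  have hε0 : 0 < ε := by positivity
  have h00 := hA 0 0
  have h01 := hA 0 1
  have h10 := hA 1 0
  have h11 := hA 1 1
  rw [Matrix.one_apply_eq] at h00 h11
  rw [Matrix.one_apply_ne (by decide), sub_zero] at h01 h10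
  have key : ∀ a b p q : ℝ, |p| < ε → |q| < ε → |a * (p * v 0 + q * v 1)| ≤
      |a| * (ε * (|v 0| + |v 1|)) := by
    intro a b p q hp hq
    rw [abs_mul]
    refine mul_le_mul_of_nonneg_left ?_ (abs_nonneg _)
    refine (abs_add_le _ _).trans ?_
    rw [abs_mul, abs_mul, mul_add]
    exact add_le_add (mul_le_mul_of_nonneg_right hp.le (abs_nonneg _))
      (mul_le_mul_of_nonneg_right hq.le (abs_nonneg _))
  have e1 := key (u 0) 0 _ _ h10 h11
  have e2 := key (u 1) 0 _ _ h00 h01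
  have e3 : dt u (ac A v) = dt u v + u 0 * (A.1 1 0 * v 0 + (A.1 1 1 - 1) * v 1) -
      u 1 * ((A.1 0 0 - 1) * v 0 + A.1 0 1 * v 1) := by
    simp only [dt, ac_zero_apply, ac_one_apply]
    ring
  have e4 : ε * K < dt u v := by
    have : ε * (K + 1) = dt u v := by
      rw [hε]
      field_simp
    nlinarith
  have e5 : |u 0| * (ε * (|v 0| + |v 1|)) + |u 1| * (ε * (|v 0| + |v 1|)) = ε * K := by
    rw [hK]
    ring
  rw [e3]
  have e6 := (abs_le.1 e1).1
  have e7 := (abs_le.1 e2).2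
  linarith

variable {S : Subsemiring ℝ} {g : ℕ}

/-- THE REPRESENTATION OF A CHART DATUM IS DISCRETE AND FAITHFUL -/
theorem disc (hS : ∀ x, x ∈ S ↔ 0 ≤ x) (hg : 2 ≤ g) (D : Dat S g) : Disc (pr.comp D.rho) := by
  obtain rfl : S = NN := by
    ext x
    rw [hS, mem_NN]
  have hP := D.pol_nu (by omega)
  have h1 : ∀ j : ℕ, ∃ ε : ℝ, 0 < ε ∧ ∀ A : SLR,
      (∀ i j, |A.1 i j - (1 : Matrix (Fin 2) (Fin 2) ℝ) i j| < ε) →
      0 < dt (D.nu j) (ac A (D.nu (j + 2))) ∧ 0 < dt (D.nu (j + 1)) (ac A (D.nu (j + 2))) := by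
    intro j
    obtain ⟨ε₁, h1, k1⟩ := near_pos (hP.pos j (j + 2) (by omega) (by push_cast; omega))
    obtain ⟨ε₂, h2, k2⟩ := near_pos (hP.pos (j + 1) (j + 2) (by omega) (by push_cast; omega))
    exact ⟨min ε₁ ε₂, lt_min h1 h2, fun A hA =>
      ⟨k1 A fun i j => (hA i j).trans_le (min_le_left _ _),
        k2 A fun i j => (hA i j).trans_le (min_le_right _ _)⟩⟩
  choose e he1 he2 using h1
  obtain ⟨q, -, hq⟩ := Finset.exists_min_image (Finset.range (2 * g)) e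
    ⟨0, Finset.mem_range.2 (by omega)⟩
  refine ⟨e q, he1 q, fun x A hA hn => ?_⟩
  by_contra hx
  obtain ⟨j, hj⟩ := D.nest hg hx
  obtain ⟨l, t, h2, h3, rfl⟩ := Dat.exists_rep (g := g) (by omega) (-1) j
  obtain ⟨l, rfl⟩ := Int.eq_ofNat_of_zero_le (show 0 ≤ l by omega)
  obtain ⟨a, ha, s1, s2, -⟩ := D.shift l t
  obtain ⟨p1, p2⟩ := he2 l A fun i j => (hn i j).trans_le
    (hq l (Finset.mem_range.2 (by omega)))
  obtain ⟨b, hb, hb2⟩ := hj (l + 2)
  -- the matrix `A` is the matrix of `x` up to the sign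
  have h4 : ∃ s : ℝ, (s = 1 ∨ s = -1) ∧ ∀ v, ac (D.rho x) v = s • ac A v := by
    rw [MonoidHom.comp_apply, pr_eq_iff] at hA
    rcases hA with h5 | h5
    · refine ⟨1, Or.inl rfl, fun v => ?_⟩
      rw [one_smul, ac, ac, h5]
    · refine ⟨-1, Or.inr rfl, fun v => ?_⟩
      rw [ac, ac, h5, Matrix.neg_mulVec, neg_one_smul, neg_neg]
  obtain ⟨s, hs, hs2⟩ := h4
  rw [hs2] at hb2
  obtain ⟨α, hα, β, hβ, h6⟩ := hb2
  rw [mem_NN] at hα hβ
  simp only [Dat.cC] at h6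
  rw [s1, s2] at h6
  have hl := D.le_pos l (by omega)
  have f1 : b * s * dt (D.nu l) (ac A (D.nu (l + 2))) = β * a * dt (D.nu l) (D.nu (l + 1)) := by
    rw [mul_assoc, ← dt_smul_right, ← dt_smul_right, h6, dt_add_right, dt_smul_right,
      dt_smul_right, dt_smul_right, dt_smul_right, dt_self]
    ring
  have f2 : b * s * dt (D.nu (l + 1)) (ac A (D.nu (l + 2))) =
      -(α * a * dt (D.nu l) (D.nu (l + 1))) := by
    rw [mul_assoc, ← dt_smul_right, ← dt_smul_right, h6, dt_add_right, dt_smul_right,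
      dt_smul_right, dt_smul_right, dt_smul_right, dt_self, dt_swap (D.nu (l + 1)) (D.nu l)]
    ring
  have f3 : (b * s) * (b * s) = 1 := sgn_sq (sgn_mul hb hs)
  have f4 : a * a = 1 := sgn_sq ha
  have f5 := mul_pos p1 p2
  have f6 : dt (D.nu l) (ac A (D.nu (l + 2))) * dt (D.nu (l + 1)) (ac A (D.nu (l + 2))) =
      -(α * β * dt (D.nu l) (D.nu (l + 1)) ^ 2) := by
    linear_combination (-(dt (D.nu l) (ac A (D.nu (l + 2))) *
      dt (D.nu (l + 1)) (ac A (D.nu (l + 2))))) * f3 +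
      (b * s * dt (D.nu (l + 1)) (ac A (D.nu (l + 2)))) * f1 +
      (β * a * dt (D.nu l) (D.nu (l + 1))) * f2 -
      (α * β * dt (D.nu l) (D.nu (l + 1)) ^ 2) * f4
  have f7 : 0 ≤ α * β * dt (D.nu l) (D.nu (l + 1)) ^ 2 := by positivity
  linarith

/-- finitely many elements have bounded entries -/
theorem fin (hS : ∀ x, x ∈ S ↔ 0 ≤ x) (hg : 2 ≤ g) (D : Dat S g) (r : ℝ) :
    {x : SurfaceGroup g | ∀ i j, |(D.rho x).1 i j| ≤ r}.Finite := by
  have h1 := disc hS hg D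
  have h2 := ToST.fin_of_discrete (pr.comp D.rho) h1.inj (ToST.isDiscrete_of_near _ h1) r
  refine h2.subset fun x hx => ⟨D.rho x, rfl, hx⟩

end Pool.Agent.ToCC
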