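import Pool.Agent.Lib.MP_305fdd_al.To.CC.Mini

/-!
# MP_305fdd_al, torsion room, block CC: every boundary point is conical

`conical`: for every vector `u ≠ 0` and `ε > 0` there is `x` with `‖ρ(x) u‖ < ε`.
-/

set_option autoImplicit false

namespace Pool.Agent.ToCC

open Pool.Agent.Su Pool.Agent.ToC

variable {g : ℕ} {D : Dat NN g} {V : Set (Fin 2 → ℝ)}

/-- the depth of the first axis of an edge -/
theorem da_le_db (D : Dat NN g) (hg : 2 ≤ g) (j : ℤ) (v : Fin 2 → ℝ) :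
    da D j v ≤ db D j v + D.lei j * D.al j * dt (D.nu j) v ^ 2 := by
  have h1 : dt (D.nu j) v * dt (D.n j) v = D.lei j * (dt (D.nu j) v * dt (D.nu (j + 1)) v) +
      D.lei j * D.al j * dt (D.nu j) v ^ 2 := by
    rw [Dat.n, dt_smul_left, dt_add_left, dt_smul_left]
    ring
  have hl := (lei_pos D hg j).le
  have ha := (al_pos D hg j).le
  rw [da, db, h1]
  refine (abs_add_le _ _).trans (le_of_eq ?_)
  rw [abs_mul, abs_of_nonneg hl, mul_comm (D.lei j),
    abs_of_nonneg (mul_nonneg (mul_nonneg hl ha) (sq_nonneg _))]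

/-- the depth of the second axis of an edge -/
theorem da_le_db' (D : Dat NN g) (hg : 2 ≤ g) (j : ℤ) (v : Fin 2 → ℝ) :
    da D (j + 1) v ≤ db D j v +
      |D.lei j * dt (D.nu j) (D.n (j + 1))| * dt (D.nu (j + 1)) v ^ 2 := by
  have h0 := plucker (D.nu j) (D.nu (j + 1)) (D.n (j + 1)) v
  rw [D.dt_nu_n] at h0
  have h2 := D.lei_mul j
  have h1 : dt (D.nu (j + 1)) v * dt (D.n (j + 1)) v =
      -(D.lei j * (dt (D.nu j) v * dt (D.nu (j + 1)) v)) +
      D.lei j * dt (D.nu j) (D.n (j + 1)) * dt (D.nu (j + 1)) v ^ 2 := by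
    linear_combination (D.lei j * dt (D.nu (j + 1)) v) * h0 -
      (dt (D.nu (j + 1)) v * dt (D.n (j + 1)) v) * h2
  have hl := (lei_pos D hg j).le
  rw [da, db, h1]
  refine (abs_add_le _ _).trans (le_of_eq ?_)
  rw [abs_neg, abs_mul, abs_of_nonneg hl, mul_comm (D.lei j), abs_mul (D.lei j * _),
    abs_of_nonneg (sq_nonneg (dt (D.nu (j + 1)) v))]

theorem edge_norm_le (D : Dat NN g) (hg : 2 ≤ g) (j : ℤ) (v : Fin 2 → ℝ) :
    ‖v‖ ≤ D.lei j * (|dt (D.nu (j + 1)) v| * ‖D.nu j‖ + |dt (D.nu j) v| * ‖D.nu (j + 1)‖) := by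
  have h2 := D.lei_mul j
  have h : v = D.lei j • ((-dt (D.nu (j + 1)) v) • D.nu j + (dt (D.nu j) v) • D.nu (j + 1)) := by
    simp only [dt] at h2
    funext i
    fin_cases i
    · simp only [Fin.zero_eta, Fin.isValue, Pi.add_apply, Pi.smul_apply, smul_eq_mul, dt]
      linear_combination (-(v 0)) * h2
    · simp only [Fin.mk_one, Fin.isValue, Pi.add_apply, Pi.smul_apply, smul_eq_mul, dt]
      linear_combination (-(v 1)) * h2
  have hl := (lei_pos D hg j).le
  conv_lhs => rw [h]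
  rw [norm_smul, Real.norm_eq_abs, abs_of_nonneg hl]
  refine mul_le_mul_of_nonneg_left ((norm_add_le _ _).trans ?_) hl
  rw [norm_smul, norm_smul, Real.norm_eq_abs, Real.norm_eq_abs, abs_neg]

/-- a vector with a shallow edge and deep neighbouring axes is bounded -/
theorem edge_bdd (D : Dat NN g) (hg : 2 ≤ g) (j : ℤ) {δ : ℝ} (hδ : 0 < δ) (Q : ℝ) :
    ∃ R : ℝ, ∀ v : Fin 2 → ℝ, db D j v ≤ Q → db D j v + δ ≤ da D j v →
      db D j v + δ ≤ da D (j + 1) v → ‖v‖ ≤ R := by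
  set C1 := D.lei j * D.al j with hC1
  set C2 := |D.lei j * dt (D.nu j) (D.n (j + 1))| with hC2
  have hl := lei_pos D hg j
  have hC1' : 0 ≤ C1 := (mul_pos hl (al_pos D hg j)).le
  have hC2' : 0 ≤ C2 := abs_nonneg _
  set P := (Q / D.lei j) ^ 2 with hP
  refine ⟨D.lei j * (Real.sqrt (C1 * P / δ) * ‖D.nu j‖ + Real.sqrt (C2 * P / δ) *
    ‖D.nu (j + 1)‖), fun v h1 h2 h3 => ?_⟩
  have h4 := da_le_db D hg j v
  have h5 := da_le_db' D hg j v
  rw [← hC1] at h4
  rw [← hC2] at h5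
  set X := dt (D.nu j) v with hX
  set Y := dt (D.nu (j + 1)) v with hY
  have h6 : δ ≤ C1 * X ^ 2 := by linarith
  have h7 : δ ≤ C2 * Y ^ 2 := by linarith
  have h8 : (X * Y) ^ 2 ≤ P := by
    have h9 : |X * Y| ≤ Q / D.lei j := by
      rw [le_div_iff₀ hl]
      exact h1
    rw [hP, ← sq_abs]
    exact pow_le_pow_left₀ (abs_nonneg _) h9 2
  have h10 : |Y| ≤ Real.sqrt (C1 * P / δ) := by
    apply Real.le_sqrt_of_sq_le
    rw [sq_abs, le_div_iff₀ hδ]
    calc Y ^ 2 * δ ≤ Y ^ 2 * (C1 * X ^ 2) := mul_le_mul_of_nonneg_left h6 (sq_nonneg _)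
      _ = C1 * (X * Y) ^ 2 := by ring
      _ ≤ C1 * P := mul_le_mul_of_nonneg_left h8 hC1'
  have h11 : |X| ≤ Real.sqrt (C2 * P / δ) := by
    apply Real.le_sqrt_of_sq_le
    rw [sq_abs, le_div_iff₀ hδ]
    calc X ^ 2 * δ ≤ X ^ 2 * (C2 * Y ^ 2) := mul_le_mul_of_nonneg_left h7 (sq_nonneg _)
      _ = C2 * (X * Y) ^ 2 := by ring
      _ ≤ C2 * P := mul_le_mul_of_nonneg_left h8 hC2'
  refine (edge_norm_le D hg j v).trans (mul_le_mul_of_nonneg_left ?_ hl.le)
  exact add_le_add (mul_le_mul_of_nonneg_right h10 (norm_nonneg _))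
    (mul_le_mul_of_nonneg_right h11 (norm_nonneg _))

/-- the least depth of all the axes is attained -/
theorem Inv.min_axes (hV : Inv D V) (hg : 1 ≤ g) :
    ∃ j₀, ∃ v₀ ∈ V, ∀ j, ∀ v ∈ V, da D j₀ v₀ ≤ da D j v := by
  choose f hf hf' using fun j => hV.min_axis hg j
  obtain ⟨n, -, hn⟩ := Finset.exists_min_image (Finset.range (2 * g))
    (fun n : ℕ => da D n (f n)) ⟨0, Finset.mem_range.2 (by omega)⟩
  refine ⟨n, f n, hf n, fun j v hv => ?_⟩
  have h1 : 0 ≤ j % (2 * g) := Int.emod_nonneg _ (by omega)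
  have h2 : j % (2 * g) < 2 * g := Int.emod_lt_of_pos _ (by omega)
  obtain ⟨m, hm⟩ : ∃ m : ℕ, (m : ℤ) = j % (2 * g) := ⟨(j % (2 * g)).toNat, by omega⟩
  have h3 := hn m (Finset.mem_range.2 (by omega))
  rw [← da_mod D j v, ← hm]
  exact h3.trans (hf' m v hv)

/-- there is no closed invariant set away from the origin -/
theorem Inv.false (hV : Inv D V) (hg : 2 ≤ g) : False := by
  obtain ⟨j₀, v₀, hv₀, h0⟩ := hV.min_axes (by omega)
  obtain ⟨j₁, v₁, hv₁, h1⟩ := hV.axis hg j₀ hv₀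
  set Q := db D j₁ v₁ with hQ
  set δ := da D j₀ v₀ - Q with hδ
  have hδ0 : 0 < δ := by linarith
  -- the least depth of one edge, compared with the edge `j₁`
  have h2 : ∀ j, ∃ i, ∃ v' ∈ V, db D i v' ≤ Q ∧ ∀ v ∈ V, db D i v' ≤ db D j v := by
    intro j
    by_cases hne : ∃ v ∈ V, db D j v ≤ Q
    · obtain ⟨R, hR⟩ := edge_bdd D hg j hδ0 Q
      have hR' : ∀ v ∈ V, db D j v ≤ Q → ‖v‖ ≤ R := by
        intro v hv h3
        refine hR v h3 ?_ ?_
        · have := h0 j v hv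
          linarith
        · have := h0 (j + 1) v hv
          linarith
      obtain ⟨w, hw, hw'⟩ := hne
      obtain ⟨v', hv', h4⟩ := exists_min_of_bdd hV.cl (continuous_db D j) (R := R)
        ⟨w, hw, hR' w hw hw'⟩
      have h5 : db D j v' ≤ Q := (h4 w hw (hR' w hw hw')).trans hw'
      refine ⟨j, v', hv', h5, fun v hv => ?_⟩
      rcases le_or_gt (db D j v) Q with h6 | h6
      · exact h4 v hv (hR' v hv h6)
      · exact h5.trans h6.le
    · push Not at hne
      exact ⟨j₁, v₁, hv₁, le_refl _, fun v hv => (hne v hv).le⟩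
  choose i f hf hfQ hf' using h2
  obtain ⟨n, -, hn⟩ := Finset.exists_min_image (Finset.range (2 * g))
    (fun n : ℕ => db D (i n) (f n)) ⟨0, Finset.mem_range.2 (by omega)⟩
  obtain ⟨j, v, hv, h3⟩ := hV.edge hg (i n) (hf n)
  have h4 : 0 ≤ j % (2 * g) := Int.emod_nonneg _ (by omega)
  have h5 : j % (2 * g) < 2 * g := Int.emod_lt_of_pos _ (by omega)
  obtain ⟨m, hm⟩ : ∃ m : ℕ, (m : ℤ) = j % (2 * g) := ⟨(j % (2 * g)).toNat, by omega⟩
  have h6 := hn m (Finset.mem_range.2 (by omega))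
  have h7 := hf' m v hv
  rw [hm, db_mod] at h7
  rw [hm] at h6
  linarith

/-- every boundary point is conical -/
theorem conical (D : Dat NN g) (hg : 2 ≤ g) {u : Fin 2 → ℝ} {ε : ℝ} (hε : 0 < ε) :
    ∃ x : SurfaceGroup g, ‖ac (D.rho x) u‖ < ε := by
  by_contra hc
  push Not at hc
  have hcont : ∀ M : Matrix.SpecialLinearGroup (Fin 2) ℝ, Continuous fun v => ac M v := by
    intro M
    unfold ac
    exact Continuous.matrix_mulVec continuous_const continuous_id
  set W : Set (Fin 2 → ℝ) := {w | ∃ x : SurfaceGroup g, w = ac (D.rho x) u ∨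
    w = -ac (D.rho x) u} with hW
  have hV : Inv D (closure W) := by
    refine ⟨isClosed_closure, ⟨u, subset_closure ⟨1, Or.inl (by rw [map_one, ac_one])⟩⟩, ?_, ?_, ?_⟩
    · intro v hv
      refine map_mem_closure (t := W) continuous_neg hv ?_
      rintro w ⟨x, rfl | rfl⟩
      · exact ⟨x, Or.inr rfl⟩
      · exact ⟨x, Or.inl (neg_neg _)⟩
    · intro y v hv
      refine map_mem_closure (t := W) (hcont (D.rho y)) hv ?_
      rintro w ⟨x, rfl | rfl⟩
      · exact ⟨y * x, Or.inl (by rw [map_mul, ac_mul])⟩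
      · exact ⟨y * x, Or.inr (by rw [map_mul, ac_mul, ac_neg])⟩
    · refine ⟨ε, hε, fun v hv => ?_⟩
      refine closure_minimal (t := {v | ε ≤ ‖v‖}) ?_ (isClosed_le continuous_const continuous_norm) hv
      rintro w ⟨x, rfl | rfl⟩
      · exact hc x
      · change ε ≤ ‖-ac (D.rho x) u‖
        rw [norm_neg]
        exact hc x
  exact hV.false hg

end Pool.Agent.ToCC
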