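import Pool.Agent.Lib.MP_305fdd_al.To.CC.Defs
import Pool.Agent.Lib.MP_305fdd_al.To.Ch.Mid

/-!
# MP_305fdd_al, torsion, block CC: cones over the real numbers
-/

set_option autoImplicit false

namespace Pool.Agent.ToCC

open Pool.Agent.ToN Pool.Agent.ToC Pool.Agent.Su

theorem eq_NN {S : Subsemiring ℝ} (hS : ∀ x, x ∈ S ↔ 0 ≤ x) : S = NN :=
  SetLike.ext fun x => by rw [hS, mem_NN]

theorem expand (p q v : Fin 2 → ℝ) : dt p q • v = dt v q • p + dt p v • q := by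
  funext i
  fin_cases i
  · simp only [Fin.zero_eta, Pi.smul_apply, Pi.add_apply, smul_eq_mul, dt]
    ring
  · simp only [Fin.mk_one, Pi.smul_apply, Pi.add_apply, smul_eq_mul, dt]
    ring

theorem mem_cone_iff {p q v : Fin 2 → ℝ} (h : 0 < dt p q) :
    v ∈ cone NN (p, q) ↔ 0 ≤ dt p v ∧ 0 ≤ dt v q := by
  constructor
  · rintro ⟨a, ha, b, hb, rfl⟩
    have ha' : 0 ≤ a := ha
    have hb' : 0 ≤ b := hb
    simp only [dt_add_right, dt_add_left, dt_smul_right, dt_smul_left, dt_self, mul_zero, zero_add,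
      add_zero]
    exact ⟨mul_nonneg hb' h.le, mul_nonneg ha' h.le⟩
  · rintro ⟨h1, h2⟩
    refine ⟨(dt p q)⁻¹ * dt v q, ?_, (dt p q)⁻¹ * dt p v, ?_, ?_⟩
    · exact mul_nonneg (inv_nonneg.2 h.le) h2
    · exact mul_nonneg (inv_nonneg.2 h.le) h1
    · have h3 := expand p q v
      have h4 : v = (dt p q)⁻¹ • (dt p q • v) := by
        rw [smul_smul, inv_mul_cancel₀ h.ne', one_smul]
      rw [h3, smul_add, smul_smul, smul_smul] at h4
      exact h4

theorem In_iff {p q v : Fin 2 → ℝ} (h : 0 < dt p q) :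
    In NN (p, q) v ↔ 0 ≤ dt p v * dt v q := by
  rw [In, mem_cone_iff h, mem_cone_iff h, dt_neg_right, dt_neg_left]
  constructor
  · rintro (⟨h1, h2⟩ | ⟨h1, h2⟩)
    · exact mul_nonneg h1 h2
    · have := mul_nonneg h1 h2
      linarith
  · intro h1
    rcases le_or_gt 0 (dt p v) with h2 | h2
    · rcases le_or_gt 0 (dt v q) with h3 | h3
      · exact Or.inl ⟨h2, h3⟩
      · rcases h2.eq_or_lt with h4 | h4
        · right
          rw [← h4]
          exact ⟨by simp, by linarith⟩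
        · exfalso
          nlinarith
    · right
      refine ⟨by linarith, ?_⟩
      by_contra hc
      push Not at hc
      nlinarith

theorem In_neg {P : (Fin 2 → ℝ) × (Fin 2 → ℝ)} {v : Fin 2 → ℝ} (h : In NN P v) : In NN P (-v) := by
  rcases h with h | h
  · exact Or.inr (by rwa [neg_neg])
  · exact Or.inl h

theorem In_sgn {P : (Fin 2 → ℝ) × (Fin 2 → ℝ)} {v : Fin 2 → ℝ} {e : ℝ} (he : e = 1 ∨ e = -1)
    (h : In NN P (e • v)) : In NN P v := by
  rcases he with rfl | rfl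
  · rwa [one_smul] at h
  · rw [neg_smul, one_smul] at h
    have := In_neg h
    rwa [neg_neg] at this

theorem In_sgn' {P : (Fin 2 → ℝ) × (Fin 2 → ℝ)} {v : Fin 2 → ℝ} {e : ℝ} (he : e = 1 ∨ e = -1)
    (h : In NN P v) : In NN P (e • v) := by
  rcases he with rfl | rfl
  · rwa [one_smul]
  · rw [neg_smul, one_smul]
    exact In_neg h

theorem In_mp {M : SLR} {P Q : (Fin 2 → ℝ) × (Fin 2 → ℝ)} (h : Mp NN M P Q) {v : Fin 2 → ℝ}
    (hv : In NN P v) : In NN Q (ac M v) := by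
  obtain ⟨e, he, h1⟩ := h.all
  rcases hv with hv | hv
  · exact In_sgn he (Or.inl (h1 v hv))
  · have h2 := h1 _ hv
    rw [ac_neg] at h2
    have h3 := In_sgn he (Or.inl h2 : In NN Q (e • -(ac M v)))
    have := In_neg h3
    rwa [neg_neg] at this

theorem In_neg_mat {M : SLR} {P : (Fin 2 → ℝ) × (Fin 2 → ℝ)} {v : Fin 2 → ℝ}
    (h : In NN P (ac M v)) : In NN P (ac (-M) v) := by
  rw [neg_ac]
  exact In_neg h

/-- the intermediate value theorem -/
theorem ivt (f : ℤ → ℝ) {a : ℤ} (ha : 0 ≤ f a) : ∀ b : ℤ, a + 1 ≤ b → f b ≤ 0 →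
    ∃ i, a ≤ i ∧ i < b ∧ 0 ≤ f i ∧ f (i + 1) ≤ 0 := by
  intro b hb
  induction b, hb using Int.leInduction with
  | base => exact fun h => ⟨a, le_refl _, by omega, ha, h⟩
  | succ b hb ih =>
    intro h
    rcases le_or_gt (f b) 0 with h1 | h1
    · obtain ⟨i, h2, h3, h4, h5⟩ := ih h1
      exact ⟨i, h2, by omega, h4, h5⟩
    · exact ⟨b, by omega, by omega, h1.le, h⟩

section

variable {g : ℕ} (D : Dat NN g)

theorem cover_cone (hg : 1 ≤ g) {l : ℤ} {v : Fin 2 → ℝ} (h : v ∈ cone NN (D.cD l)) :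
    ∃ m, l < m ∧ m < l + 2 * g ∧ v ∈ cone NN (D.cC m) := by
  have h0 : 0 < dt (D.nu (l + 1)) (-(D.nu l)) := by
    rw [dt_neg_right, ← dt_swap]
    exact D.le_pos l hg
  rw [Dat.cD, mem_cone_iff h0, dt_neg_right] at h
  obtain ⟨i, h1, h2, h3, h4⟩ := ivt (fun i => dt (D.nu i) v) h.1 (l + 2 * g) (by omega) (by
    rw [D.nu_per, dt_neg_left, dt_swap, neg_neg]
    linarith)
  refine ⟨i, by omega, h2, ?_⟩
  rw [Dat.cC, mem_cone_iff (D.le_pos i hg)]
  refine ⟨h3, ?_⟩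
  have h4' : dt (D.nu (i + 1)) v ≤ 0 := h4
  rw [dt_swap]
  linarith

theorem cover (hg : 1 ≤ g) {l : ℤ} {v : Fin 2 → ℝ} (h : In NN (D.cD l) v) :
    ∃ m, l < m ∧ m < l + 2 * g ∧ In NN (D.cC m) v := by
  rcases h with h | h
  · obtain ⟨m, h1, h2, h3⟩ := cover_cone D hg h
    exact ⟨m, h1, h2, Or.inl h3⟩
  · obtain ⟨m, h1, h2, h3⟩ := cover_cone D hg h
    exact ⟨m, h1, h2, Or.inr h3⟩

theorem cover_cone' (hg : 1 ≤ g) {l : ℤ} {v : Fin 2 → ℝ} (h : v ∈ cone NN (D.cD' l)) :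
    ∃ m, l < m ∧ m < l + 2 * g ∧ -v ∈ cone NN (D.cC' m) := by
  have h0 : 0 < dt (D.w l) (-(D.w (l + 1))) := by
    rw [dt_neg_right, ← dt_swap]
    exact D.w_edge_pos l hg
  rw [Dat.cD', mem_cone_iff h0, dt_neg_right, ← dt_swap] at h
  obtain ⟨i, h1, h2, h3, h4⟩ := ivt (fun i => dt (D.w i) v) h.2 (l + 2 * g) (by omega) (by
    rw [D.w_per, dt_neg_left]
    linarith)
  refine ⟨i, by omega, h2, ?_⟩
  have h4' : dt (D.w (i + 1)) v ≤ 0 := h4
  have h5 : dt v (D.w i) = - dt (D.w i) v := dt_swap _ _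
  rw [Dat.cC', mem_cone_iff (D.w_edge_pos i hg), dt_neg_right, dt_neg_left, h5]
  exact ⟨by linarith, by linarith⟩

theorem cover' (hg : 1 ≤ g) {l : ℤ} {v : Fin 2 → ℝ} (h : In NN (D.cD' l) v) :
    ∃ m, l < m ∧ m < l + 2 * g ∧ In NN (D.cC' m) v := by
  rcases h with h | h
  · obtain ⟨m, h1, h2, h3⟩ := cover_cone' D hg h
    exact ⟨m, h1, h2, Or.inr h3⟩
  · obtain ⟨m, h1, h2, h3⟩ := cover_cone' D hg h
    refine ⟨m, h1, h2, Or.inl ?_⟩
    rwa [neg_neg] at h3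

theorem Mp_G_C (m : ℤ) : Mp NN (D.G m) (D.cC m) (D.cD' m) := by
  refine ⟨1, Or.inl rfl, ?_, ?_⟩
  · rw [Dat.cC, D.G_nu, one_smul]
    exact cone_smul (fst_mem_cone (D.cD' m)) (D.mu_mem m)
  · rw [Dat.cC, D.G_nu', one_smul]
    exact snd_mem_cone (D.cD' m)

theorem Mp_G_inv_C (l : ℤ) : Mp NN (D.G l)⁻¹ (D.cC' l) (D.cD l) := by
  refine ⟨-1, Or.inr rfl, ?_, ?_⟩
  · rw [Dat.cC', D.inv_G_w', neg_smul, one_smul, neg_neg]
    exact fst_mem_cone (D.cD l)
  · rw [Dat.cC', D.inv_G_w, neg_smul, one_smul, ← smul_neg]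
    exact cone_smul (snd_mem_cone (D.cD l)) (D.mui_mem l)

theorem rho_pair (hg : 1 ≤ g) (p q : ℤ) : D.rho ((Gz g p)⁻¹ * Gz g q) = (D.G p)⁻¹ * D.G q ∨
    D.rho ((Gz g p)⁻¹ * Gz g q) = -((D.G p)⁻¹ * D.G q) := by
  have e1 : ((D.G (-1))⁻¹ * D.G p)⁻¹ * ((D.G (-1))⁻¹ * D.G q) = (D.G p)⁻¹ * D.G q := by group
  rw [map_mul, map_inv]
  rcases D.rho_Gz hg p with h2 | h2 <;> rcases D.rho_Gz hg q with h3 | h3 <;> rw [h2, h3]
  · left; exact e1
  · right; rw [mul_neg, e1]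
  · right; rw [inv_neg, neg_mul, e1]
  · left; rw [inv_neg, neg_mul_neg, e1]

theorem nd_of_lt {m l : ℤ} (h1 : m < l) (h2 : l < m + 2 * g) : Nd g m l := by
  rintro ⟨c, hc⟩
  rcases lt_trichotomy c 0 with h3 | h3 | h3
  · nlinarith
  · rw [h3, mul_zero] at hc
    omega
  · nlinarith

/-- one step of the walk through the polygons -/
theorem step (hg : 1 ≤ g) {m : ℤ} {v : Fin 2 → ℝ} (h : In NN (D.cC m) v) :
    ∃ l m', Nd g m l ∧ Nd g l m' ∧ In NN (D.cC m') (ac (D.rho ((Gz g l)⁻¹ * Gz g m)) v) := by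
  obtain ⟨l, h1, h2, h3⟩ := cover' D hg (In_mp (Mp_G_C D m) h)
  obtain ⟨m', h4, h5, h6⟩ := cover D hg (In_mp (Mp_G_inv_C D l) h3)
  refine ⟨l, m', nd_of_lt h1 h2, nd_of_lt h4 h5, ?_⟩
  rw [← ac_mul] at h6
  rcases rho_pair D hg l m with h7 | h7 <;> rw [h7]
  · exact h6
  · exact In_neg_mat h6

theorem Gz_mem (p q : ℤ) : (Gz g p)⁻¹ * Gz g q ∈ FF g := by
  obtain ⟨n, rfl⟩ : ∃ n, q = p + n := ⟨q - p, by ring⟩
  induction n using Int.induction_on with
  | zero => rw [add_zero, inv_mul_cancel]; exact Subgroup.one_mem _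
  | succ n ih =>
    have h1 : (Gz g p)⁻¹ * Gz g (p + (n + 1)) = ((Gz g p)⁻¹ * Gz g (p + n)) *
        cz g (p + (n + 1)) := by
      rw [cz, show p + ((n : ℤ) + 1) - 1 = p + n by ring]
      group
    rw [h1]
    exact Subgroup.mul_mem _ ih (cz_mem g _)
  | pred n ih =>
    have h1 : (Gz g p)⁻¹ * Gz g (p + (-n - 1)) = ((Gz g p)⁻¹ * Gz g (p + -n)) *
        (cz g (p + -n))⁻¹ := by
      rw [cz, show p + (-(n : ℤ) - 1) = p + -n - 1 by ring]
      group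
    rw [h1]
    exact Subgroup.mul_mem _ ih (Subgroup.inv_mem _ (cz_mem g _))

/-- `al j` is positive -/
theorem al_pos (hg : 2 ≤ g) (j : ℤ) : 0 < D.al j := by
  have hX : ac (D.c j) (D.nu (j + 1)) = ac (D.G (j - 1))⁻¹ (D.w (j + 1)) := by
    rw [Dat.c, neg_ac, ac_mul, D.G_nu', ac_neg, neg_neg]
  set X := ac (D.c j) (D.nu (j + 1)) with hXd
  have h1 : dt X (D.nu j) = - (D.mui j * D.le j) := by
    rw [dt_swap, hXd, D.dt_nu_c]
  have h2 : dt X (D.nu (j - 1)) = D.mu (j - 1) * dt (D.w (j + 1)) (D.w (j - 1)) := by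
    have h3 : D.nu (j - 1) = D.mu (j - 1) • ac (D.G (j - 1))⁻¹ (D.w (j - 1)) := by
      rw [D.inv_G_w, smul_smul, D.mu_mul, one_smul]
    rw [h3, hX, dt_smul_right, dt_ac]
  have h4 := plucker (D.nu (j - 1)) (D.nu j) (D.nu (j + 1)) X
  have h5 : dt (D.nu (j - 1)) (D.nu j) * D.lei (j - 1) = 1 := by
    have := D.lei_mul (j - 1)
    rwa [sub_add_cancel] at this
  have h6 := D.lei_mul j
  have h7 : dt (D.nu (j + 1)) X * D.lei j = D.lei (j - 1) *
      (D.mui j * dt (D.nu (j - 1)) (D.nu (j + 1)) +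
        D.mu (j - 1) * dt (D.w (j + 1)) (D.w (j - 1))) := by
    have h8 : dt (D.nu j) X = D.mui j * D.le j := by rw [dt_swap, h1, neg_neg]
    have h9 : dt (D.nu (j - 1)) X = - (D.mu (j - 1) * dt (D.w (j + 1)) (D.w (j - 1))) := by
      rw [dt_swap, h2]
    rw [h8, h9, Dat.le] at h4
    linear_combination (-(dt (D.nu (j + 1)) X * D.lei j)) * h5 +
      (D.lei j * D.lei (j - 1)) * h4 +
      (D.lei (j - 1) * (D.mui j * dt (D.nu (j - 1)) (D.nu (j + 1)) +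
        D.mu (j - 1) * dt (D.w (j + 1)) (D.w (j - 1)))) * h6
  rw [Dat.al, ← hXd, h7]
  have p1 : 0 < dt (D.nu (j - 1)) (D.nu (j + 1)) :=
    (D.pol_nu (by omega)).pos _ _ (by omega) (by push_cast; omega)
  have p2 : 0 ≤ dt (D.w (j + 1)) (D.w (j - 1)) := D.w_pos _ _ (by omega) (by omega)
  have p3 : 0 ≤ D.lei (j - 1) := D.lei_mem _
  have p4 : 0 < D.lei (j - 1) := lt_of_le_of_ne p3 fun h0 => by
    rw [← h0, mul_zero] at h5
    exact zero_ne_one h5
  have p5 : 0 ≤ D.mui j := D.mui_mem j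
  have p6 : 0 < D.mui j := lt_of_le_of_ne p5 fun h0 => by
    have := D.mu_mul j
    rw [← h0, mul_zero] at this
    exact zero_ne_one this
  have p7 : 0 ≤ D.dl j := D.dl_mem j
  have p8 : 0 < D.dl j := lt_of_le_of_ne p7 fun h0 => by
    have := D.dl_mul j
    rw [← h0, mul_zero] at this
    exact zero_ne_one this
  have p9 := D.mu_pos (j - 1)
  have := mul_nonneg p9.le p2
  have := mul_pos p6 p1
  exact mul_pos (mul_pos p4 (by linarith)) p8

theorem lei_pos (j : ℤ) : 0 < D.lei j := by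
  have p3 : 0 ≤ D.lei j := D.lei_mem _
  exact lt_of_le_of_ne p3 fun h0 => by
    have := D.lei_mul j
    rw [← h0, mul_zero] at this
    exact zero_ne_one this

theorem dt_n_nu1 (j : ℤ) : dt (D.n j) (D.nu (j + 1)) = D.al j := by
  rw [D.nu_eq_n, dt_add_right, dt_smul_right, dt_smul_right, dt_self, dt_neg_right, D.dt_n_nu]
  ring

/-- beyond the edge but not behind the line -/
theorem In_gap (hg : 2 ≤ g) {m : ℤ} {v : Fin 2 → ℝ} (h1 : In NN (D.cC m) v)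
    (h2 : ¬ In NN (D.cJ m) v) : In NN (D.n m, D.nu (m + 1)) v := by
  have ha := al_pos D hg m
  rw [Dat.cC, In_iff (D.le_pos m (by omega))] at h1
  rw [Dat.cJ, In_iff (by rw [D.dt_nu_n]; exact one_pos)] at h2
  push Not at h2
  rw [In_iff (by rw [dt_n_nu1]; exact ha)]
  rw [D.nu_eq_n, dt_add_right, dt_smul_right, dt_smul_right, dt_neg_right] at h1 ⊢
  have e1 : dt v (D.nu m) = - dt (D.nu m) v := dt_swap _ _
  have e2 : dt (D.n m) v = - dt v (D.n m) := dt_swap _ _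
  rw [e1] at h1 ⊢
  rw [e2]
  have hl : 0 < D.le m := D.le_pos m (by omega)
  set A := dt (D.nu m) v
  set B := dt v (D.n m)
  -- `A * B < 0`
  have h3 : 0 ≤ A * (D.le m * B + D.al m * A) := by linarith
  have h4 : 0 ≤ B ^ 2 * (A * (D.le m * B + D.al m * A)) := mul_nonneg (sq_nonneg B) h3
  have h5 : B ^ 2 * (A * (D.le m * B + D.al m * A)) =
      (A * B) * (B * (D.le m * B + D.al m * A)) := by ring
  rw [h5] at h4
  have h6 : B * (D.le m * B + D.al m * A) ≤ 0 := by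
    by_contra hc
    push Not at hc
    nlinarith
  have h7 : -B * (D.le m * B + D.al m * - -A) = -(B * (D.le m * B + D.al m * A)) := by ring
  rw [h7]
  linarith

end

end Pool.Agent.ToCC
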