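import Pool.Agent.Lib.MP_305fdd_al.To.CC.Min
import Pool.Agent.Lib.MP_305fdd_al.To.Ch.Cyc

/-!
# MP_305fdd_al, torsion, block CC: definitions
-/

set_option autoImplicit false

namespace Pool.Agent.ToCC

open Pool.Agent.ToN Pool.Agent.ToC Pool.Agent.Su

/-- `u` is in the cone of `P` up to the sign -/
def In (S : Subsemiring ℝ) (P : (Fin 2 → ℝ) × (Fin 2 → ℝ)) (u : Fin 2 → ℝ) : Prop :=
  u ∈ cone S P ∨ -u ∈ cone S P

/-- the orbit of `u` does not accumulate at `0` -/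
def Wd {G : Type} [Group G] (ρ : G →* SLR) (u : Fin 2 → ℝ) : Prop :=
  ∃ c : ℝ, 0 < c ∧ ∀ x : G, c ≤ nr (ac (ρ x) u)

/-- no translate of `u` by the group of the `2g`-holed sphere is behind a line -/
def NJ {S : Subsemiring ℝ} {g : ℕ} (D : Dat S g) (u : Fin 2 → ℝ) : Prop :=
  ∀ f ∈ FF g, ∀ j : ℤ, ¬ In S (D.cJ j) (ac (D.rho f) u)

theorem Wd.ac {G : Type} [Group G] {ρ : G →* SLR} {u : Fin 2 → ℝ} (h : Wd ρ u) (y : G) :
    Wd ρ (ac (ρ y) u) := by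
  obtain ⟨c, hc, h1⟩ := h
  refine ⟨c, hc, fun x => ?_⟩
  have h2 := h1 (x * y)
  rwa [map_mul, ac_mul] at h2

end Pool.Agent.ToCC
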