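import Pool.Agent.Lib.MP_305fdd_al.To.Ch.Pos
import Mathlib.Algebra.Ring.Subsemiring.Order
import Mathlib.Analysis.Normed.Ring.Lemmas

/-!
# MP_305fdd_al, torsion room, block CC: depths over the real numbers

`D : Dat (Subsemiring.nonneg ℝ) g`, `2 ≤ g`.  The depth of an axis and of an edge at a boundary vector,
and the comparison of two nested geodesics.
-/

set_option autoImplicit false

namespace Pool.Agent.ToCC

open Matrix Pool.Agent.Su Pool.Agent.ToC

/-- the positive elements -/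
abbrev NN : Subsemiring ℝ := Subsemiring.nonneg ℝ

theorem mem_NN {x : ℝ} : x ∈ NN ↔ 0 ≤ x := Iff.rfl

/-- ascending change of a property of integers -/
theorem step_up (P : ℤ → Prop) {a b : ℤ} (hab : a ≤ b) (ha : P a) (hb : ¬ P b) :
    ∃ i, a ≤ i ∧ i < b ∧ P i ∧ ¬ P (i + 1) := by
  by_contra hc
  push Not at hc
  have h : ∀ n : ℕ, a + n ≤ b → P (a + n) := by
    intro n
    induction n with
    | zero => intro _; simpa using ha
    | succ n ih =>
      intro h1
      push_cast at h1 ⊢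
      rw [← add_assoc]
      exact hc _ (by omega) (by omega) (ih (by omega))
  have h1 := h (b - a).toNat (by omega)
  rw [show a + ((b - a).toNat : ℤ) = b by omega] at h1
  exact hb h1

/-- descending change of a property of integers -/
theorem step_down (P : ℤ → Prop) {a b : ℤ} (hab : b ≤ a) (ha : P a) (hb : ¬ P b) :
    ∃ i, b ≤ i ∧ i < a ∧ P (i + 1) ∧ ¬ P i := by
  obtain ⟨i, h1, h2, h3, h4⟩ := step_up (fun i => ¬ P i) hab hb (not_not.2 ha)
  exact ⟨i, h1, h2, not_not.1 h4, h3⟩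

/-- NEST: `p, s, v, t, r` in cyclic order -/
theorem nest {p s v t r : Fin 2 → ℝ} (h1 : 0 < dt p v) (h2 : 0 < dt s v) (h3 : 0 < dt v t)
    (h4 : 0 < dt v r) (h5 : 0 < dt s t) (h6 : 0 < dt p r) (h7 : 0 ≤ dt p s) (h8 : 0 ≤ dt t r)
    (h9 : 0 < dt p s ∨ 0 < dt t r) :
    dt s v * dt v t / dt s t < dt p v * dt v r / dt p r := by
  rw [div_lt_div_iff₀ h5 h6]
  have e1 : dt p v * dt v r * dt s t - dt s v * dt v t * dt p r =
      dt p s * (dt v t * dt v r) + dt t r * (dt p v * dt s v) := by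
    simp only [dt]; ring
  have h10 : 0 < dt p s * (dt v t * dt v r) + dt t r * (dt p v * dt s v) := by
    have a1 : 0 < dt v t * dt v r := mul_pos h3 h4
    have a2 : 0 < dt p v * dt s v := mul_pos h1 h2
    rcases h9 with h9 | h9
    · exact add_pos_of_pos_of_nonneg (mul_pos h9 a1) (mul_nonneg h8 a2.le)
    · exact add_pos_of_nonneg_of_pos (mul_nonneg h7 a1.le) (mul_pos h9 a2)
  linarith

variable {g : ℕ} (D : Dat NN g)

theorem le_pos (hg : 2 ≤ g) (j : ℤ) : 0 < D.le j := by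
  have h1 : 0 ≤ D.le j := D.le_mem hg j
  have h2 : D.le j * D.lei j = 1 := D.lei_mul j
  rcases h1.eq_or_lt with h3 | h3
  · rw [← h3, zero_mul] at h2
    exact absurd h2 (by norm_num)
  · exact h3

theorem lei_pos (hg : 2 ≤ g) (j : ℤ) : 0 < D.lei j := by
  have h1 := le_pos D hg j
  have h2 : D.le j * D.lei j = 1 := D.lei_mul j
  rcases lt_or_ge 0 (D.lei j) with h3 | h3
  · exact h3
  · nlinarith [mul_nonneg h1.le (sub_nonneg.2 h3)]

theorem mu_pos (j : ℤ) : 0 < D.mu j := by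
  have h1 : 0 ≤ D.mu j := D.mu_mem j
  have h2 := D.mu_mul j
  rcases h1.eq_or_lt with h3 | h3
  · rw [← h3, zero_mul] at h2
    exact absurd h2 (by norm_num)
  · exact h3

theorem mui_pos (j : ℤ) : 0 < D.mui j := by
  have h1 : 0 ≤ D.mui j := D.mui_mem j
  have h2 := D.mu_mul j
  rcases h1.eq_or_lt with h3 | h3
  · rw [← h3, mul_zero] at h2
    exact absurd h2 (by norm_num)
  · exact h3

theorem r_pos (j : ℤ) : 0 < D.r j := by
  have h1 : 0 ≤ D.r j := D.r_mem j
  have h2 := D.r_mul j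
  rcases h1.eq_or_lt with h3 | h3
  · rw [← h3, zero_mul] at h2
    exact absurd h2 (by norm_num)
  · exact h3

theorem ri_pos (j : ℤ) : 0 < D.ri j := by
  have h1 : 0 ≤ D.ri j := D.ri_mem j
  have h2 := D.r_mul j
  rcases h1.eq_or_lt with h3 | h3
  · rw [← h3, mul_zero] at h2
    exact absurd h2 (by norm_num)
  · exact h3

theorem dl_pos (j : ℤ) : 0 < D.dl j := by
  have h1 : 0 ≤ D.dl j := D.dl_mem j
  have h2 := D.dl_mul j
  rcases h1.eq_or_lt with h3 | h3
  · rw [← h3, mul_zero] at h2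
    exact absurd h2 (by norm_num)
  · exact h3

theorem one_lt_mu (j : ℤ) : 1 < D.mu j := by
  have h1 := dl_pos D j
  have h2 := D.dl_mul j
  have h3 := D.mu_mul j
  have h4 := mui_pos D j
  have h5 : 0 < D.mu j - D.mui j := by
    by_contra hc
    push Not at hc
    nlinarith [mul_nonneg h1.le (sub_nonneg.2 hc)]
  by_contra hc
  push Not at hc
  nlinarith

/-- the edge of the back polygon -/
theorem le'_pos (hg : 2 ≤ g) (j : ℤ) : 0 < dt (D.w (j + 1)) (D.w j) := by
  have h1 := D.edge j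
  have h2 : 0 < dt (D.nu j) (D.nu (j + 1)) := le_pos D hg j
  have h3 := mu_pos D j
  by_contra hc
  push Not at hc
  nlinarith [mul_nonneg h3.le (sub_nonneg.2 hc)]

/-- strict positivity of the determinants of the vertices of the front polygon -/
theorem nu_lt (hg : 2 ≤ g) {i j : ℤ} (h1 : i < j) (h2 : j < i + 2 * g) :
    0 < dt (D.nu i) (D.nu j) := by
  have h3 : 0 ≤ dt (D.nu i) (D.nu j) := D.nu_pos i j h1 h2
  have key : ∀ n : ℕ, i + 1 + n < i + 2 * g → 0 < dt (D.nu i) (D.nu (i + 1 + n)) := by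
    intro n
    induction n with
    | zero =>
      intro _
      have := le_pos D hg i
      simpa [Dat.le] using this
    | succ n ih =>
      intro h4
      push_cast at h4 ⊢
      have a1 := ih (by omega)
      have a2 : 0 ≤ dt (D.nu i) (D.nu (i + 1 + (n + 1))) := D.nu_pos _ _ (by omega) (by omega)
      rcases a2.eq_or_lt with a3 | a3
      swap
      · exact a3
      have a4 := plucker (D.nu i) (D.nu (i + 1 + n)) (D.nu (i + 1 + (n + 1)))
        (D.nu (i + 1 + (n + 1) + 1))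
      rw [← a3] at a4
      have a5 : 0 < dt (D.nu (i + 1 + (n + 1))) (D.nu (i + 1 + (n + 1) + 1)) := le_pos D hg _
      have a6 : 0 < dt (D.nu (i + 1 + n)) (D.nu (i + 1 + (n + 1))) := by
        have := le_pos D hg (i + 1 + n)
        rw [Dat.le] at this
        rwa [show i + 1 + (n : ℤ) + 1 = i + 1 + (n + 1) by ring] at this
      have a7 : 0 ≤ dt (D.nu i) (D.nu (i + 1 + (n + 1) + 1)) := by
        rcases eq_or_lt_of_le (show i + 1 + (n + 1) + 1 ≤ i + 2 * (g : ℤ) by omega) with h5 | h5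
        · rw [h5, D.nu_per, dt_neg_right, dt_self, neg_zero]
        · exact D.nu_pos _ _ (by omega) h5
      nlinarith [mul_pos a1 a5, mul_nonneg a7 a6.le]
  have h4 := key (j - (i + 1)).toNat (by omega)
  rwa [show i + 1 + ((j - (i + 1)).toNat : ℤ) = j by omega] at h4

/-- strict positivity of the determinants of the vertices of the back polygon -/
theorem w_lt (hg : 2 ≤ g) {i j : ℤ} (h1 : i < j) (h2 : j < i + 2 * g) :
    0 < dt (D.w j) (D.w i) := by
  have key : ∀ n : ℕ, i + 1 + n < i + 2 * g → 0 < dt (D.w (i + 1 + n)) (D.w i) := by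
    intro n
    induction n with
    | zero =>
      intro _
      have := le'_pos D hg i
      simpa using this
    | succ n ih =>
      intro h4
      push_cast at h4 ⊢
      have a1 := ih (by omega)
      have a2 : 0 ≤ dt (D.w (i + 1 + (n + 1))) (D.w i) := D.w_pos _ _ (by omega) (by omega)
      rcases a2.eq_or_lt with a3 | a3
      swap
      · exact a3
      have a4 := plucker (D.w i) (D.w (i + 1 + n)) (D.w (i + 1 + (n + 1)))
        (D.w (i + 1 + (n + 1) + 1))
      have b3 : dt (D.w i) (D.w (i + 1 + (n + 1))) = 0 := by rw [dt_swap, ← a3, neg_zero]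
      rw [b3] at a4
      have a5 : 0 < dt (D.w (i + 1 + (n + 1) + 1)) (D.w (i + 1 + (n + 1))) := le'_pos D hg _
      have a6 : 0 < dt (D.w (i + 1 + (n + 1))) (D.w (i + 1 + n)) := by
        have := le'_pos D hg (i + 1 + n)
        rwa [show i + 1 + (n : ℤ) + 1 = i + 1 + (n + 1) by ring] at this
      have a7 : 0 ≤ dt (D.w (i + 1 + (n + 1) + 1)) (D.w i) := by
        rcases eq_or_lt_of_le (show i + 1 + (n + 1) + 1 ≤ i + 2 * (g : ℤ) by omega) with h5 | h5
        · rw [h5, D.w_per, dt_neg_left, dt_self, neg_zero]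
        · exact D.w_pos _ _ (by omega) h5
      rw [dt_swap (D.w i) (D.w (i + 1 + n)), dt_swap (D.w (i + 1 + (n + 1)))
        (D.w (i + 1 + (n + 1) + 1)), dt_swap (D.w i) (D.w (i + 1 + (n + 1) + 1)),
        dt_swap (D.w (i + 1 + n)) (D.w (i + 1 + (n + 1)))] at a4
      nlinarith [mul_pos a1 a5, mul_nonneg a7 a6.le]
  have h4 := key (j - (i + 1)).toNat (by omega)
  rwa [show i + 1 + ((j - (i + 1)).toNat : ℤ) = j by omega] at h4

/-- the number `alpha`, from the vertices -/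
theorem al_eq (j : ℤ) : D.al j = D.lei (j - 1) *
    (D.mui j * dt (D.nu (j - 1)) (D.nu (j + 1)) +
      D.mu (j - 1) * dt (D.w (j + 1)) (D.w (j - 1))) * D.dl j := by
  have hX : ac (D.c j) (D.nu (j + 1)) = ac (D.G (j - 1))⁻¹ (D.w (j + 1)) := by
    rw [Dat.c, neg_ac, ac_mul, D.G_nu', ac_neg, neg_neg]
  set X := ac (D.c j) (D.nu (j + 1)) with hXd
  have h1 : dt X (D.nu j) = - (D.mui j * D.le j) := by
    rw [dt_swap, hXd, D.dt_nu_c]
  have h2 : dt X (D.nu (j - 1)) = D.mu (j - 1) * dt (D.w (j + 1)) (D.w (j - 1)) := by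
    have h3 : D.nu (j - 1) = D.mu (j - 1) • ac (D.G (j - 1))⁻¹ (D.w (j - 1)) := by
      rw [D.inv_G_w, smul_smul, D.mu_mul, one_smul]
    rw [h3, hX, dt_smul_right, dt_ac]
  have h4 := plucker (D.nu (j - 1)) (D.nu j) (D.nu (j + 1)) X
  have h5 : dt (D.nu (j - 1)) (D.nu j) * D.lei (j - 1) = 1 := by
    have := D.lei_mul (j - 1)
    rwa [sub_add_cancel] at this
  have h6 := D.lei_mul j
  have h7 : dt (D.nu (j + 1)) X * D.lei j = D.lei (j - 1) *
      (D.mui j * dt (D.nu (j - 1)) (D.nu (j + 1)) +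
        D.mu (j - 1) * dt (D.w (j + 1)) (D.w (j - 1))) := by
    have h8 : dt (D.nu j) X = D.mui j * D.le j := by rw [dt_swap, h1, neg_neg]
    have h9 : dt (D.nu (j - 1)) X = - (D.mu (j - 1) * dt (D.w (j + 1)) (D.w (j - 1))) := by
      rw [dt_swap, h2]
    rw [h8, h9, Dat.le] at h4
    linear_combination (-(dt (D.nu (j + 1)) X * D.lei j)) * h5 +
      (D.lei j * D.lei (j - 1)) * h4 +
      (D.lei (j - 1) * (D.mui j * dt (D.nu (j - 1)) (D.nu (j + 1)) +
        D.mu (j - 1) * dt (D.w (j + 1)) (D.w (j - 1)))) * h6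
  rw [Dat.al, ← hXd, h7]

theorem al_pos (hg : 2 ≤ g) (j : ℤ) : 0 < D.al j := by
  rw [al_eq D]
  have h1 := nu_lt D hg (i := j - 1) (j := j + 1) (by omega) (by omega)
  have h2 := w_lt D hg (i := j - 1) (j := j + 1) (by omega) (by omega)
  have h3 := mui_pos D j
  have h4 := mu_pos D (j - 1)
  have h5 := lei_pos D hg (j - 1)
  have h6 := dl_pos D j
  positivity

/-- the depth of the axis `j` -/
def da (j : ℤ) (v : Fin 2 → ℝ) : ℝ := |dt (D.nu j) v * dt (D.n j) v|

/-- the depth of the edge `j` -/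
def db (j : ℤ) (v : Fin 2 → ℝ) : ℝ := |dt (D.nu j) v * dt (D.nu (j + 1)) v| * D.lei j

theorem da_nonneg (j : ℤ) (v : Fin 2 → ℝ) : 0 ≤ da D j v := abs_nonneg _

theorem db_nonneg (hg : 2 ≤ g) (j : ℤ) (v : Fin 2 → ℝ) : 0 ≤ db D j v :=
  mul_nonneg (abs_nonneg _) (lei_pos D hg j).le

theorem da_neg (j : ℤ) (v : Fin 2 → ℝ) : da D j (-v) = da D j v := by
  rw [da, da, dt_neg_right, dt_neg_right, neg_mul_neg]

theorem db_neg (j : ℤ) (v : Fin 2 → ℝ) : db D j (-v) = db D j v := by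
  rw [db, db, dt_neg_right, dt_neg_right, neg_mul_neg]

theorem da_per (j : ℤ) (v : Fin 2 → ℝ) : da D (j + 2 * g) v = da D j v := by
  rw [da, da, D.nu_per, D.n_per, dt_neg_left, dt_neg_left, neg_mul_neg]

theorem db_per (j : ℤ) (v : Fin 2 → ℝ) : db D (j + 2 * g) v = db D j v := by
  rw [db, db, D.lei_per, show j + 2 * (g : ℤ) + 1 = (j + 1) + 2 * g by ring, D.nu_per, D.nu_per,
    dt_neg_left, dt_neg_left, neg_mul_neg]

theorem lei_eq (j : ℤ) : D.lei j = (dt (D.nu j) (D.nu (j + 1)))⁻¹ := by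
  have h := D.lei_mul j
  exact eq_inv_of_mul_eq_one_right h

/-- the depth of the edge, for a vector beyond or in front of the edge -/
theorem db_eq (j : ℤ) (v : Fin 2 → ℝ) :
    db D j v = |dt (D.nu j) v * dt (D.nu (j + 1)) v| / dt (D.nu j) (D.nu (j + 1)) := by
  rw [db, lei_eq D, div_eq_mul_inv]

/-- the depth of the edge, from the back polygon -/
theorem db_G (j : ℤ) (v : Fin 2 → ℝ) :
    db D j (ac (D.G j)⁻¹ v) =
      |dt (D.w j) v * dt (D.w (j + 1)) v| / dt (D.w (j + 1)) (D.w j) := by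
  have h1 : dt (D.nu j) (ac (D.G j)⁻¹ v) = D.mu j * dt (D.w j) v := by
    rw [← dt_ac (D.G j), ac_ac_inv, D.G_nu, dt_smul_left]
  have h2 : dt (D.nu (j + 1)) (ac (D.G j)⁻¹ v) = - dt (D.w (j + 1)) v := by
    rw [← dt_ac (D.G j), ac_ac_inv, D.G_nu', dt_neg_left]
  rw [db_eq D, h1, h2, ← D.edge j, mul_neg, abs_neg, mul_assoc, abs_mul,
    abs_of_pos (mu_pos D j), mul_div_mul_left _ _ (mu_pos D j).ne']

end Pool.Agent.ToCC
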