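import Pool.Agent.Lib.MP_305fdd_al.To.CC.Loc
import Pool.Agent.Lib.MP_305fdd_al.To.Ch.Grp
import Mathlib.Topology.Algebra.Module.FiniteDimension
import Mathlib.Analysis.Normed.Module.FiniteDimension
import Mathlib.Algebra.Ring.Periodic

/-!
# MP_305fdd_al, torsion room, block CC: invariant closed sets of boundary vectors

A closed invariant set of vectors away from the origin: every edge and every axis is beaten by another
edge.
-/

set_option autoImplicit false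

namespace Pool.Agent.ToCC

open Pool.Agent.Su Pool.Agent.ToC

variable {g : ℕ} {D : Dat NN g}

/-- closed sets of vectors invariant under the group, away from the origin -/
structure Inv (D : Dat NN g) (V : Set (Fin 2 → ℝ)) : Prop where
  cl : IsClosed V
  ne : V.Nonempty
  neg : ∀ v ∈ V, -v ∈ V
  act : ∀ x : SurfaceGroup g, ∀ v ∈ V, ac (D.rho x) v ∈ V
  far : ∃ m : ℝ, 0 < m ∧ ∀ v ∈ V, m ≤ ‖v‖

variable {V : Set (Fin 2 → ℝ)}

theorem Inv.c_mem (hV : Inv D V) (hg : 1 ≤ g) (j t : ℤ) {v : Fin 2 → ℝ} (hv : v ∈ V) :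
    ac (D.c j ^ t) v ∈ V := by
  rw [← D.rho_cz hg j, ← map_zpow]
  exact hV.act _ v hv

theorem Inv.GG_mem (hV : Inv D V) (hg : 1 ≤ g) (i j : ℤ) {v : Fin 2 → ℝ} (hv : v ∈ V) :
    ac ((D.G i)⁻¹ * D.G j) v ∈ V := by
  have h := hV.act ((Gz g i)⁻¹ * Gz g j) v hv
  rw [map_mul, map_inv] at h
  have e1 : ((D.G (-1))⁻¹ * D.G i)⁻¹ * ((D.G (-1))⁻¹ * D.G j) = (D.G i)⁻¹ * D.G j := by group
  rcases D.rho_Gz hg i with h1 | h1 <;> rcases D.rho_Gz hg j with h2 | h2 <;> rw [h1, h2] at h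
  · rwa [e1] at h
  · rw [mul_neg, e1, neg_ac] at h
    have := hV.neg _ h
    rwa [neg_neg] at this
  · rw [inv_neg, neg_mul, e1, neg_ac] at h
    have := hV.neg _ h
    rwa [neg_neg] at this
  · rwa [inv_neg, neg_mul_neg, e1] at h

theorem Inv.B_mem (hV : Inv D V) {i : ℤ} (h0 : 0 ≤ i) (h1 : i < g) {v : Fin 2 → ℝ} (hv : v ∈ V) :
    ac (D.B i) v ∈ V := by
  obtain ⟨n, rfl⟩ : ∃ n : ℕ, (n : ℤ) = i := ⟨i.toNat, by omega⟩
  have h := hV.act (sb g ⟨n, by omega⟩) v hv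
  rwa [D.rho_b] at h

theorem Inv.B_inv_mem (hV : Inv D V) {i : ℤ} (h0 : 0 ≤ i) (h1 : i < g) {v : Fin 2 → ℝ}
    (hv : v ∈ V) : ac (D.B i)⁻¹ v ∈ V := by
  obtain ⟨n, rfl⟩ : ∃ n : ℕ, (n : ℤ) = i := ⟨i.toNat, by omega⟩
  have h := hV.act (sb g ⟨n, by omega⟩)⁻¹ v hv
  rwa [map_inv, D.rho_b] at h

/-- a vector in the basis of an axis -/
theorem axis_dec (D : Dat NN g) (j : ℤ) (v : Fin 2 → ℝ) :
    v = (-dt (D.n j) v) • D.nu j + (dt (D.nu j) v) • D.n j := by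
  have h := D.dt_nu_n j
  simp only [dt] at h
  funext i
  fin_cases i
  · simp only [Fin.zero_eta, Fin.isValue, Pi.add_apply, Pi.smul_apply, smul_eq_mul, dt]
    linear_combination (-(v 0)) * h
  · simp only [Fin.mk_one, Fin.isValue, Pi.add_apply, Pi.smul_apply, smul_eq_mul, dt]
    linear_combination (-(v 1)) * h

theorem axis_norm_le (D : Dat NN g) (j : ℤ) (v : Fin 2 → ℝ) :
    ‖v‖ ≤ |dt (D.n j) v| * ‖D.nu j‖ + |dt (D.nu j) v| * ‖D.n j‖ := by
  conv_lhs => rw [axis_dec D j v]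
  refine (norm_add_le _ _).trans ?_
  rw [norm_smul, norm_smul, Real.norm_eq_abs, Real.norm_eq_abs, abs_neg]

theorem Inv.nu_ne (hV : Inv D V) (hg : 1 ≤ g) (j : ℤ) {v : Fin 2 → ℝ} (hv : v ∈ V) :
    dt (D.nu j) v ≠ 0 := by
  intro h0
  obtain ⟨m, hm, hf⟩ := hV.far
  obtain ⟨t, ht⟩ := pow_unbounded_of_one_lt (|dt (D.n j) v| * ‖D.nu j‖ / m) (one_lt_mu D j)
  rw [div_lt_iff₀ hm] at ht
  have h1 := hf _ (hV.c_mem hg j (-(t : ℤ)) hv)
  have hp : 0 < D.mu j ^ t := pow_pos (mu_pos D j) t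
  have h2 : ‖ac (D.c j ^ (-(t : ℤ))) v‖ ≤ |dt (D.n j) v| * ‖D.nu j‖ / D.mu j ^ t := by
    refine (axis_norm_le D j _).trans (le_of_eq ?_)
    rw [dt_nu_zpow, h0, mul_zero, abs_zero, zero_mul, add_zero, dt_n_zpow, abs_mul,
      abs_of_pos (zpow_pos (mu_pos D j) _), zpow_neg, zpow_natCast, mul_assoc, inv_mul_eq_div]
  have h3 := h1.trans h2
  rw [le_div_iff₀ hp] at h3
  linarith

theorem Inv.n_ne (hV : Inv D V) (hg : 1 ≤ g) (j : ℤ) {v : Fin 2 → ℝ} (hv : v ∈ V) :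
    dt (D.n j) v ≠ 0 := by
  intro h0
  obtain ⟨m, hm, hf⟩ := hV.far
  obtain ⟨t, ht⟩ := pow_unbounded_of_one_lt (|dt (D.nu j) v| * ‖D.n j‖ / m) (one_lt_mu D j)
  rw [div_lt_iff₀ hm] at ht
  have h1 := hf _ (hV.c_mem hg j (t : ℤ) hv)
  have hp : 0 < D.mu j ^ t := pow_pos (mu_pos D j) t
  have h2 : ‖ac (D.c j ^ (t : ℤ)) v‖ ≤ |dt (D.nu j) v| * ‖D.n j‖ / D.mu j ^ t := by
    refine (axis_norm_le D j _).trans (le_of_eq ?_)
    rw [dt_n_zpow, h0, mul_zero, abs_zero, zero_mul, zero_add, dt_nu_zpow, abs_mul,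
      abs_of_pos (zpow_pos (mu_pos D j) _), zpow_neg, zpow_natCast, mul_assoc, inv_mul_eq_div]
  have h3 := h1.trans h2
  rw [le_div_iff₀ hp] at h3
  linarith

theorem Inv.w_ne (hV : Inv D V) (hg : 1 ≤ g) (i j : ℤ) {v : Fin 2 → ℝ} (hv : v ∈ V) :
    dt (D.w i) (ac (D.G j) v) ≠ 0 := by
  intro h0
  apply hV.nu_ne hg i (hV.GG_mem hg i j hv)
  rw [← dt_ac (D.G i), ← ac_mul, mul_inv_cancel_left, D.G_nu, dt_smul_left, h0, mul_zero]

/-- every edge is beaten -/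
theorem Inv.edge (hV : Inv D V) (hg : 2 ≤ g) (j : ℤ) {v : Fin 2 → ℝ} (hv : v ∈ V) :
    ∃ i, ∃ v' ∈ V, db D i v' < db D j v := by
  have key : ∀ v ∈ V, 0 < dt (D.nu j) v → ∃ i, ∃ v' ∈ V, db D i v' < db D j v := by
    intro v hv h1
    rcases lt_or_gt_of_ne (hV.nu_ne (by omega) (j + 1) hv) with h2 | h2
    · obtain ⟨i, hi⟩ := edge_back D hg h2 h1 (fun i => hV.w_ne (by omega) i j hv)
      exact ⟨i, _, hV.GG_mem (by omega) i j hv, hi⟩
    · obtain ⟨i, hi⟩ := edge_front D hg h2 h1 (fun i => hV.nu_ne (by omega) i hv)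
      exact ⟨i, v, hv, hi⟩
  rcases lt_or_gt_of_ne (hV.nu_ne (by omega) j hv) with h1 | h1
  · obtain ⟨i, v', h2, h3⟩ := key (-v) (hV.neg v hv) (by rw [dt_neg_right]; linarith)
    exact ⟨i, v', h2, by rwa [db_neg] at h3⟩
  · exact key v hv h1

/-- every axis is beaten, the vector on the front side -/
theorem Inv.axis_front (hV : Inv D V) (hg : 2 ≤ g) (j : ℤ) {v : Fin 2 → ℝ} (hv : v ∈ V)
    (h1 : 0 < dt (D.nu j) v) (h2 : 0 < dt (D.n j) v) :
    ∃ i, ∃ v' ∈ V, db D i v' < da D j v := by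
  obtain ⟨t, h3, h4⟩ := axis_norm D hg h1 h2
  have hm : ∀ s : ℤ, 0 < D.mu j ^ s := fun s => zpow_pos (mu_pos D j) s
  have hv1 := hV.c_mem (by omega) j t hv
  have h5 : 0 < dt (D.nu j) (ac (D.c j ^ t) v) := by
    rw [dt_nu_zpow]
    exact mul_pos (hm _) h1
  have h6 : 0 < dt (D.n j) (ac (D.c j ^ t) v) := by
    rw [dt_n_zpow]
    exact mul_pos (hm _) h2
  obtain ⟨i, h7 | h7⟩ := axis_step D hg h5 h6 h3 h4 (fun i => hV.nu_ne (by omega) i hv1)
    (fun i => hV.w_ne (by omega) i (j - 1) hv1)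
  · exact ⟨i, _, hv1, by rwa [da_zpow] at h7⟩
  · exact ⟨i, _, hV.GG_mem (by omega) i (j - 1) hv1, by rwa [da_zpow] at h7⟩

theorem da_B (D : Dat NN g) (i : ℤ) (v : Fin 2 → ℝ) :
    dt (D.nu (2 * i + 1)) (ac (D.B i) v) = D.ri i * dt (D.n (2 * i)) v ∧
    dt (D.n (2 * i + 1)) (ac (D.B i) v) = - (D.r i * dt (D.nu (2 * i)) v) := by
  have h1 := dt_ac (D.B i) (D.n (2 * i)) v
  rw [D.B_n, dt_smul_left] at h1
  have h2 := dt_ac (D.B i) (D.nu (2 * i)) v
  rw [D.B_nu, dt_neg_left, dt_smul_left] at h2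
  have h3 := D.r_mul i
  constructor
  · linear_combination (D.ri i) * h1 - (dt (D.nu (2 * i + 1)) (ac (D.B i) v)) * h3
  · linear_combination (-(D.r i)) * h2 - (dt (D.n (2 * i + 1)) (ac (D.B i) v)) * h3

theorem da_B_inv (D : Dat NN g) (i : ℤ) (v : Fin 2 → ℝ) :
    dt (D.n (2 * i)) (ac (D.B i)⁻¹ v) = D.r i * dt (D.nu (2 * i + 1)) v ∧
    dt (D.nu (2 * i)) (ac (D.B i)⁻¹ v) = - (D.ri i * dt (D.n (2 * i + 1)) v) := by
  obtain ⟨h1, h2⟩ := da_B D i (ac (D.B i)⁻¹ v)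
  rw [ac_ac_inv] at h1 h2
  have h3 := D.r_mul i
  constructor
  · linear_combination (-(D.r i)) * h1 - (dt (D.n (2 * i)) (ac (D.B i)⁻¹ v)) * h3
  · linear_combination (D.ri i) * h2 - (dt (D.nu (2 * i)) (ac (D.B i)⁻¹ v)) * h3

/-- every axis in one period is beaten -/
theorem Inv.axis0 (hV : Inv D V) (hg : 2 ≤ g) {j : ℤ} (hj : 0 ≤ j) (hj' : j < 2 * g)
    {v : Fin 2 → ℝ} (hv : v ∈ V) : ∃ i, ∃ v' ∈ V, db D i v' < da D j v := by
  have key : ∀ v ∈ V, 0 < dt (D.nu j) v → ∃ i, ∃ v' ∈ V, db D i v' < da D j v := by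
    intro v hv h1
    rcases lt_or_gt_of_ne (hV.n_ne (by omega) j hv) with h2 | h2
    swap
    · exact hV.axis_front hg j hv h1 h2
    obtain ⟨i, hi | hi⟩ : ∃ i : ℤ, j = 2 * i ∨ j = 2 * i + 1 := ⟨j / 2, by omega⟩
    · subst hi
      obtain ⟨a1, a2⟩ := da_B D i v
      have a3 := hV.neg _ (hV.B_mem (i := i) (by omega) (by omega) hv)
      have a4 : da D (2 * i + 1) (-(ac (D.B i) v)) = da D (2 * i) v := by
        rw [da_neg, da, da, a1, a2, mul_neg, abs_neg]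
        congr 1
        have := D.r_mul i
        linear_combination (dt (D.n (2 * i)) v * dt (D.nu (2 * i)) v) * this
      obtain ⟨l, v', h5, h6⟩ := hV.axis_front hg (2 * i + 1) a3 (by
        rw [dt_neg_right, a1]
        have := mul_neg_of_pos_of_neg (ri_pos D i) h2
        linarith) (by
        rw [dt_neg_right, a2, neg_neg]
        exact mul_pos (r_pos D i) h1)
      exact ⟨l, v', h5, by rwa [a4] at h6⟩
    · subst hi
      obtain ⟨a1, a2⟩ := da_B_inv D i v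
      have a3 := hV.B_inv_mem (i := i) (by omega) (by omega) hv
      have a4 : da D (2 * i) (ac (D.B i)⁻¹ v) = da D (2 * i + 1) v := by
        rw [da, da, a1, a2, neg_mul, abs_neg]
        congr 1
        have := D.r_mul i
        linear_combination (dt (D.n (2 * i + 1)) v * dt (D.nu (2 * i + 1)) v) * this
      obtain ⟨l, v', h5, h6⟩ := hV.axis_front hg (2 * i) a3 (by
        rw [a2]
        have := mul_neg_of_pos_of_neg (ri_pos D i) h2
        linarith) (by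
        rw [a1]
        exact mul_pos (r_pos D i) h1)
      exact ⟨l, v', h5, by rwa [a4] at h6⟩
  rcases lt_or_gt_of_ne (hV.nu_ne (by omega) j hv) with h1 | h1
  · obtain ⟨i, v', h2, h3⟩ := key (-v) (hV.neg v hv) (by rw [dt_neg_right]; linarith)
    exact ⟨i, v', h2, by rwa [da_neg] at h3⟩
  · exact key v hv h1

theorem per_mod {f : ℤ → ℝ} {c : ℤ} (h : ∀ j, f (j + c) = f j) (j : ℤ) : f (j % c) = f j := by
  have h1 : Function.Periodic f c := h
  have h2 := h1.int_mul (j / c) (j % c)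
  rw [Int.cast_id, show j % c + (j / c) * c = j by
    have := Int.emod_add_mul_ediv j c
    linarith] at h2
  exact h2.symm

theorem da_mod (D : Dat NN g) (j : ℤ) (v : Fin 2 → ℝ) : da D (j % (2 * g)) v = da D j v :=
  per_mod (f := fun j => da D j v) (fun j => da_per D j v) j

theorem db_mod (D : Dat NN g) (j : ℤ) (v : Fin 2 → ℝ) : db D (j % (2 * g)) v = db D j v :=
  per_mod (f := fun j => db D j v) (fun j => db_per D j v) j

/-- every axis is beaten -/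
theorem Inv.axis (hV : Inv D V) (hg : 2 ≤ g) (j : ℤ) {v : Fin 2 → ℝ} (hv : v ∈ V) :
    ∃ i, ∃ v' ∈ V, db D i v' < da D j v := by
  rw [← da_mod D j v]
  exact hV.axis0 hg (Int.emod_nonneg _ (by omega)) (Int.emod_lt_of_pos _ (by omega)) hv

end Pool.Agent.ToCC
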