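import Pool.Agent.Lib.MP_305fdd_al.To.CC.Dep

/-!
# MP_305fdd_al, torsion room, block CC: the local steps

Neither an edge nor an axis has the least depth: for a vector `v` there is an edge of smaller depth at a
vector in the orbit of `v`.
-/

set_option autoImplicit false

namespace Pool.Agent.ToCC

open Pool.Agent.Su Pool.Agent.ToC

variable {g : ℕ} (D : Dat NN g)

/-- an edge, the vector on the side of the front polygon -/
theorem edge_front (hg : 2 ≤ g) {j : ℤ} {v : Fin 2 → ℝ} (h1 : 0 < dt (D.nu (j + 1)) v)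
    (h2 : 0 < dt (D.nu j) v) (h0 : ∀ i, dt (D.nu i) v ≠ 0) : ∃ i, db D i v < db D j v := by
  obtain ⟨i, hi1, hi2, hi3, hi4⟩ := step_up (fun i => 0 < dt (D.nu i) v)
    (a := j + 1) (b := j + 2 * g) (by omega) h1 (by
      rw [D.nu_per, dt_neg_left]
      linarith)
  have hi5 : dt (D.nu (i + 1)) v < 0 := lt_of_le_of_ne (not_lt.1 hi4) (h0 _)
  have hi6 : 0 < dt v (D.nu (i + 1)) := by rw [dt_swap]; linarith
  refine ⟨i, ?_⟩
  have k1 : 0 < dt v (D.nu (j + 2 * g)) := by rw [D.nu_per, dt_neg_right, dt_swap]; linarith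
  have k2 : 0 < dt (D.nu i) (D.nu (i + 1)) := nu_lt D hg (by omega) (by omega)
  have k3 : 0 < dt (D.nu (j + 1)) (D.nu (j + 2 * g)) := nu_lt D hg (by omega) (by omega)
  have k4 : 0 ≤ dt (D.nu (j + 1)) (D.nu i) := by
    rcases eq_or_lt_of_le hi1 with rfl | h
    · rw [dt_self]
    · exact (nu_lt D hg h (by omega)).le
  have k5 : 0 ≤ dt (D.nu (i + 1)) (D.nu (j + 2 * g)) := by
    rcases eq_or_lt_of_le (show i + 1 ≤ j + 2 * g by omega) with h | h
    · rw [h, dt_self]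
    · exact (nu_lt D hg h (by omega)).le
  have k6 : 0 < dt (D.nu (j + 1)) (D.nu i) ∨ 0 < dt (D.nu (i + 1)) (D.nu (j + 2 * g)) := by
    rcases eq_or_lt_of_le hi1 with h | h
    · exact Or.inr (nu_lt D hg (by omega) (by omega))
    · exact Or.inl (nu_lt D hg h (by omega))
  have h := nest h1 hi3 hi6 k1 k2 k3 k4 k5 k6
  rw [db_eq, db_eq]
  have e1 : |dt (D.nu i) v * dt (D.nu (i + 1)) v| = dt (D.nu i) v * dt v (D.nu (i + 1)) := by
    rw [dt_swap (D.nu (i + 1)), mul_neg, abs_neg, abs_of_pos (mul_pos hi3 hi6)]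
  have e2 : |dt (D.nu j) v * dt (D.nu (j + 1)) v| =
      dt (D.nu (j + 1)) v * dt v (D.nu (j + 2 * g)) := by
    rw [abs_of_pos (mul_pos h2 h1), D.nu_per, dt_neg_right, dt_swap v, neg_neg, mul_comm]
  have e3 : dt (D.nu j) (D.nu (j + 1)) = dt (D.nu (j + 1)) (D.nu (j + 2 * g)) := by
    rw [D.nu_per, dt_neg_right, dt_swap (D.nu (j + 1)), neg_neg]
  rw [e1, e2, e3]
  exact h

/-- an edge, the vector beyond the edge -/
theorem edge_back (hg : 2 ≤ g) {j : ℤ} {v : Fin 2 → ℝ} (h1 : dt (D.nu (j + 1)) v < 0)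
    (h2 : 0 < dt (D.nu j) v)
    (h0 : ∀ i, dt (D.w i) (ac (D.G j) v) ≠ 0) :
    ∃ i, db D i (ac ((D.G i)⁻¹ * D.G j) v) < db D j v := by
  have g1 : dt (D.w j) (ac (D.G j) v) = D.mui j * dt (D.nu j) v := by
    have := dt_ac (D.G j) (D.nu j) v
    rw [D.G_nu, dt_smul_left] at this
    have h3 := D.mu_mul j
    linear_combination (D.mui j) * this - (dt (D.w j) (ac (D.G j) v)) * h3
  have g2 : dt (D.w (j + 1)) (ac (D.G j) v) = - dt (D.nu (j + 1)) v := by
    have := dt_ac (D.G j) (D.nu (j + 1)) v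
    rw [D.G_nu', dt_neg_left] at this
    linear_combination -this
  set v' := ac (D.G j) v with hv'
  have a1 : 0 < dt (D.w j) v' := by
    rw [g1]
    exact mul_pos (mui_pos D j) h2
  have a2 : 0 < dt (D.w (j + 1)) v' := by rw [g2]; linarith
  have hper : D.w (j + 1) = - D.w (j + 1 - 2 * g) := by
    have := D.w_per (j + 1 - 2 * g)
    rwa [sub_add_cancel] at this
  obtain ⟨i, hi1, hi2, hi3, hi4⟩ := step_down (fun i => 0 < dt (D.w i) v')
    (a := j) (b := j + 1 - 2 * g) (by omega) a1 (by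
      rw [hper, dt_neg_left] at a2
      linarith)
  have hi5 : dt (D.w i) v' < 0 := lt_of_le_of_ne (not_lt.1 hi4) (h0 _)
  have hi6 : 0 < dt v' (D.w i) := by rw [dt_swap]; linarith
  refine ⟨i, ?_⟩
  have k1 : 0 < dt v' (D.w (j + 1 - 2 * g)) := by
    rw [dt_swap]
    rw [hper, dt_neg_left] at a2
    exact a2
  have k2 : 0 < dt (D.w (i + 1)) (D.w i) := w_lt D hg (by omega) (by omega)
  have k3 : 0 < dt (D.w j) (D.w (j + 1 - 2 * g)) := w_lt D hg (by omega) (by omega)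
  have k4 : 0 ≤ dt (D.w j) (D.w (i + 1)) := by
    rcases eq_or_lt_of_le (show i + 1 ≤ j by omega) with h | h
    · rw [h, dt_self]
    · exact (w_lt D hg h (by omega)).le
  have k5 : 0 ≤ dt (D.w i) (D.w (j + 1 - 2 * g)) := by
    rcases eq_or_lt_of_le hi1 with h | h
    · rw [h, dt_self]
    · exact (w_lt D hg h (by omega)).le
  have k6 : 0 < dt (D.w j) (D.w (i + 1)) ∨ 0 < dt (D.w i) (D.w (j + 1 - 2 * g)) := by
    rcases eq_or_lt_of_le hi1 with h | h
    · exact Or.inl (w_lt D hg (by omega) (by omega))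
    · exact Or.inr (w_lt D hg h (by omega))
  have h := nest a1 hi3 hi6 k1 k2 k3 k4 k5 k6
  have e0 : db D j v = |dt (D.w j) v' * dt (D.w (j + 1)) v'| / dt (D.w (j + 1)) (D.w j) := by
    rw [← db_G, hv', ac_inv_ac]
  rw [ac_mul, ← hv', db_G, e0]
  have e1 : |dt (D.w i) v' * dt (D.w (i + 1)) v'| = dt (D.w (i + 1)) v' * dt v' (D.w i) := by
    rw [dt_swap (D.w i) v', neg_mul, abs_neg, mul_comm, abs_of_pos (mul_pos hi3 hi6)]
  have e2 : |dt (D.w j) v' * dt (D.w (j + 1)) v'| =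
      dt (D.w j) v' * dt v' (D.w (j + 1 - 2 * g)) := by
    rw [abs_of_pos (mul_pos a1 a2), hper, dt_neg_left, dt_swap v']
  have e3 : dt (D.w (j + 1)) (D.w j) = dt (D.w j) (D.w (j + 1 - 2 * g)) := by
    rw [hper, dt_neg_left, dt_swap (D.w j)]
  rw [e1, e2, e3]
  exact h

/-! ### Axes -/

theorem mui_eq (j : ℤ) : D.mui j = (D.mu j)⁻¹ := eq_inv_of_mul_eq_one_right (D.mu_mul j)

theorem c_zpow_nu (j t : ℤ) : ac (D.c j ^ t) (D.nu j) = (D.mu j ^ t) • D.nu j := by
  have hm := (mu_pos D j).ne'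
  induction t using Int.induction_on with
  | zero => rw [zpow_zero, zpow_zero, ac_one, one_smul]
  | succ t ih => rw [zpow_add_one, ac_mul, D.c_nu, ac_smul, ih, smul_smul, zpow_add_one₀ hm,
      mul_comm]
  | pred t ih => rw [zpow_sub_one, ac_mul, D.inv_c_nu, ac_smul, ih, smul_smul, zpow_sub_one₀ hm,
      mui_eq, mul_comm]

theorem c_zpow_n (j t : ℤ) : ac (D.c j ^ t) (D.n j) = (D.mu j ^ (-t)) • D.n j := by
  have hm := (mu_pos D j).ne'
  induction t using Int.induction_on with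
  | zero => rw [neg_zero, zpow_zero, zpow_zero, ac_one, one_smul]
  | succ t ih => rw [zpow_add_one, ac_mul, D.c_n, ac_smul, ih, smul_smul,
      show -((t : ℤ) + 1) = -t - 1 by ring, zpow_sub_one₀ hm, mui_eq, mul_comm]
  | pred t ih => rw [zpow_sub_one, ac_mul, D.inv_c_n, ac_smul, ih, smul_smul,
      show -(-(t : ℤ) - 1) = - -(t : ℤ) + 1 by ring, zpow_add_one₀ hm, mul_comm]

theorem dt_nu_zpow (j t : ℤ) (v : Fin 2 → ℝ) :
    dt (D.nu j) (ac (D.c j ^ t) v) = D.mu j ^ (-t) * dt (D.nu j) v := by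
  have h := dt_ac (D.c j ^ t) (ac (D.c j ^ (-t)) (D.nu j)) v
  rw [← ac_mul, ← zpow_add, add_neg_cancel, zpow_zero, ac_one, c_zpow_nu, dt_smul_left] at h
  exact h

theorem dt_n_zpow (j t : ℤ) (v : Fin 2 → ℝ) :
    dt (D.n j) (ac (D.c j ^ t) v) = D.mu j ^ t * dt (D.n j) v := by
  have h := dt_ac (D.c j ^ t) (ac (D.c j ^ (-t)) (D.n j)) v
  rw [← ac_mul, ← zpow_add, add_neg_cancel, zpow_zero, ac_one, c_zpow_n, neg_neg,
    dt_smul_left] at h
  exact h

theorem da_zpow (j t : ℤ) (v : Fin 2 → ℝ) : da D j (ac (D.c j ^ t) v) = da D j v := by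
  have hm := (mu_pos D j).ne'
  rw [da, da, dt_nu_zpow, dt_n_zpow, mul_mul_mul_comm, ← zpow_add₀ hm, neg_add_cancel, zpow_zero,
    one_mul]

theorem dt_nu' (j : ℤ) (v : Fin 2 → ℝ) :
    dt (D.nu (j + 1)) v = D.le j * dt (D.n j) v - D.al j * dt (D.nu j) v := by
  rw [D.nu_eq_n, dt_add_left, dt_smul_left, dt_smul_left, dt_neg_left]
  ring

/-- a power of `c_j` moves the vector to the fundamental domain of the axis -/
theorem axis_norm (hg : 2 ≤ g) {j : ℤ} {v : Fin 2 → ℝ} (h1 : 0 < dt (D.nu j) v)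
    (h2 : 0 < dt (D.n j) v) : ∃ t : ℤ, 0 ≤ dt (D.nu (j + 1)) (ac (D.c j ^ t) v) ∧
      dt (ac (D.c j) (D.nu (j + 1))) (ac (D.c j ^ t) v) < 0 := by
  have hm := mu_pos D j
  have hm1 := one_lt_mu D j
  have hl := le_pos D hg j
  have ha := al_pos D hg j
  have hx : 0 < D.al j * dt (D.nu j) v / (D.le j * dt (D.n j) v) :=
    div_pos (mul_pos ha h1) (mul_pos hl h2)
  have hy : 1 < D.mu j ^ 2 := by nlinarith
  obtain ⟨n, hn1, hn2⟩ := exists_mem_Ioc_zpow hx hy
  have hpos : ∀ t : ℤ, 0 < D.mu j ^ t := fun t => zpow_pos hm t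
  have hsq : ∀ t : ℤ, (D.mu j ^ 2) ^ t = D.mu j ^ t * D.mu j ^ t := by
    intro t
    rw [← mul_zpow, ← sq]
  have hinv : ∀ t : ℤ, D.mu j ^ (-t) * D.mu j ^ t = 1 := by
    intro t
    rw [← zpow_add₀ hm.ne', neg_add_cancel, zpow_zero]
  rw [lt_div_iff₀ (mul_pos hl h2), hsq] at hn1
  rw [div_le_iff₀ (mul_pos hl h2), hsq] at hn2
  refine ⟨n + 1, ?_, ?_⟩
  · rw [dt_nu', dt_n_zpow, dt_nu_zpow]
    have h3 : D.mu j ^ (n + 1) * (D.le j * (D.mu j ^ (n + 1) * dt (D.n j) v) -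
        D.al j * (D.mu j ^ (-(n + 1)) * dt (D.nu j) v)) =
        D.mu j ^ (n + 1) * D.mu j ^ (n + 1) * (D.le j * dt (D.n j) v) -
          D.al j * dt (D.nu j) v := by
      linear_combination (-(D.al j * dt (D.nu j) v)) * hinv (n + 1)
    have h4 := hpos (n + 1)
    by_contra hc
    push Not at hc
    nlinarith [mul_neg_of_pos_of_neg h4 hc]
  · have h0 : ac (D.c j ^ (n + 1)) v = ac (D.c j) (ac (D.c j ^ n) v) := by
      rw [← ac_mul, zpow_add_one, ((Commute.refl (D.c j)).zpow_left n).eq]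
    rw [h0, dt_ac, dt_nu', dt_n_zpow, dt_nu_zpow]
    have h3 : D.mu j ^ n * (D.le j * (D.mu j ^ n * dt (D.n j) v) -
        D.al j * (D.mu j ^ (-n) * dt (D.nu j) v)) =
        D.mu j ^ n * D.mu j ^ n * (D.le j * dt (D.n j) v) -
          D.al j * dt (D.nu j) v := by
      linear_combination (-(D.al j * dt (D.nu j) v)) * hinv n
    have h4 := hpos n
    by_contra hc
    push Not at hc
    nlinarith [mul_nonneg h4.le hc]

theorem n_nu_nonneg (hg : 2 ≤ g) {i j : ℤ} (h1 : j + 1 ≤ i) (h2 : i < j + 2 * g) :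
    0 ≤ dt (D.n j) (D.nu i) := by
  rw [Dat.n, dt_smul_left, dt_add_left, dt_smul_left]
  have a1 : 0 ≤ dt (D.nu (j + 1)) (D.nu i) := by
    rcases eq_or_lt_of_le h1 with h | h
    · rw [h, dt_self]
    · exact (nu_lt D hg h (by omega)).le
  have a2 := (nu_lt D hg (i := j) (j := i) (by omega) h2).le
  have a3 := (al_pos D hg j).le
  have a4 := (lei_pos D hg j).le
  positivity

/-- the repelling eigenvector in the back polygon -/
theorem Gn_w_nonneg (hg : 2 ≤ g) {k j : ℤ} (h1 : j < k) (h2 : k ≤ j - 1 + 2 * g) :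
    0 ≤ dt (ac (D.G (j - 1)) (D.n j)) (D.w k) := by
  set m := ac (D.G (j - 1)) (D.n j) with hm
  have e1 : D.mu (j - 1) * dt (D.w (j - 1)) m = dt (D.nu (j - 1)) (D.n j) := by
    rw [← dt_smul_left, ← D.G_nu, hm, dt_ac]
  have e2 : dt (D.w j) m = - 1 := by
    have h3 := D.G_nu' (j - 1)
    rw [sub_add_cancel] at h3
    have h4 : D.w j = - ac (D.G (j - 1)) (D.nu j) := by rw [h3, neg_neg]
    rw [h4, dt_neg_left, hm, dt_ac, D.dt_nu_n]
  have e3 : 0 < dt (D.nu (j - 1)) (D.n j) := by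
    rw [Dat.n, dt_smul_right, dt_add_right, dt_smul_right]
    have a1 := nu_lt D hg (i := j - 1) (j := j + 1) (by omega) (by omega)
    have a2 := nu_lt D hg (i := j - 1) (j := j) (by omega) (by omega)
    have a3 := al_pos D hg j
    have a4 := lei_pos D hg j
    positivity
  have e4 : 0 < dt (D.w (j - 1)) m := by
    have := mu_pos D (j - 1)
    by_contra hc
    push Not at hc
    nlinarith [mul_nonneg this.le (sub_nonneg.2 hc)]
  have e5 := plucker (D.w (j - 1)) (D.w j) m (D.w k)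
  rw [e2, dt_swap (D.w (j - 1)) (D.w j), dt_swap (D.w j) (D.w k),
    dt_swap (D.w (j - 1)) (D.w k)] at e5
  have e6 : 0 < dt (D.w j) (D.w (j - 1)) := w_lt D hg (by omega) (by omega)
  have e7 : 0 < dt (D.w k) (D.w j) := w_lt D hg (by omega) (by omega)
  have e8 : 0 ≤ dt (D.w k) (D.w (j - 1)) := by
    rcases eq_or_lt_of_le h2 with h | h
    · rw [h, D.w_per, dt_neg_left, dt_self, neg_zero]
    · exact (w_lt D hg (by omega) h).le
  by_contra hc
  push Not at hc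
  nlinarith [mul_pos e4 e7, mul_neg_of_pos_of_neg e6 hc]

/-- an axis, the vector in the fundamental domain on its front side -/
theorem axis_step (hg : 2 ≤ g) {j : ℤ} {v : Fin 2 → ℝ} (h1 : 0 < dt (D.nu j) v)
    (h2 : 0 < dt (D.n j) v) (h3 : 0 ≤ dt (D.nu (j + 1)) v)
    (h4 : dt (ac (D.c j) (D.nu (j + 1))) v < 0) (h0 : ∀ i, dt (D.nu i) v ≠ 0)
    (h0' : ∀ i, dt (D.w i) (ac (D.G (j - 1)) v) ≠ 0) :
    ∃ i, db D i v < da D j v ∨ db D i (ac ((D.G i)⁻¹ * D.G (j - 1)) v) < da D j v := by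
  have e0 : da D j v = dt (D.n j) v * dt (D.nu j) v := by
    rw [da, abs_of_pos (mul_pos h1 h2), mul_comm]
  rcases lt_or_gt_of_ne (h0 (j - 1)) with h5 | h5
  · -- the back polygon
    set v' := ac (D.G (j - 1)) v with hv'
    have g1 : dt (D.w (j - 1)) v' = D.mui (j - 1) * dt (D.nu (j - 1)) v := by
      have := dt_ac (D.G (j - 1)) (D.nu (j - 1)) v
      rw [D.G_nu, dt_smul_left, ← hv'] at this
      have h6 := D.mu_mul (j - 1)
      linear_combination (D.mui (j - 1)) * this - (dt (D.w (j - 1)) v') * h6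
    have g2 : dt (D.w j) v' = - dt (D.nu j) v := by
      have := dt_ac (D.G (j - 1)) (D.nu j) v
      have h6 := D.G_nu' (j - 1)
      rw [sub_add_cancel] at h6
      rw [h6, dt_neg_left, ← hv'] at this
      linear_combination -this
    have g3 : dt (D.w (j + 1)) v' = dt (ac (D.c j) (D.nu (j + 1))) v := by
      have hX : ac (D.c j) (D.nu (j + 1)) = ac (D.G (j - 1))⁻¹ (D.w (j + 1)) := by
        rw [Dat.c, neg_ac, ac_mul, D.G_nu', ac_neg, neg_neg]
      rw [hX, ← dt_ac (D.G (j - 1)) (ac (D.G (j - 1))⁻¹ (D.w (j + 1))), ac_ac_inv]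
    have a1 : 0 < dt (D.w (j - 1 + 2 * g)) v' := by
      rw [D.w_per, dt_neg_left, g1]
      have := mul_pos_of_neg_of_neg (neg_neg_of_pos (mui_pos D (j - 1))) h5
      linarith
    obtain ⟨i, hi1, hi2, hi3, hi4⟩ := step_down (fun i => 0 < dt (D.w i) v')
      (a := j - 1 + 2 * g) (b := j + 1) (by omega) a1 (by rw [g3]; linarith)
    have hi5 : dt (D.w i) v' < 0 := lt_of_le_of_ne (not_lt.1 hi4) (h0' _)
    have hi6 : 0 < dt v' (D.w i) := by rw [dt_swap]; linarith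
    refine ⟨i, Or.inr ?_⟩
    have k0 : 0 < dt (ac (D.G (j - 1)) (D.n j)) v' := by rw [hv', dt_ac]; exact h2
    have k1 : 0 < dt v' (D.w j) := by rw [dt_swap, g2]; linarith
    have k2 : 0 < dt (D.w (i + 1)) (D.w i) := w_lt D hg (by omega) (by omega)
    have k3 : dt (ac (D.G (j - 1)) (D.n j)) (D.w j) = 1 := by
      have h6 := D.G_nu' (j - 1)
      rw [sub_add_cancel] at h6
      have h7 : D.w j = - ac (D.G (j - 1)) (D.nu j) := by rw [h6, neg_neg]
      rw [h7, dt_neg_right, dt_ac, D.dt_n_nu, neg_neg]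
    have k4 := Gn_w_nonneg D hg (k := i + 1) (j := j) (by omega) (by omega)
    have k5 : 0 < dt (D.w i) (D.w j) := w_lt D hg (by omega) (by omega)
    have h := nest k0 hi3 hi6 k1 k2 (by rw [k3]; exact one_pos) k4 k5.le (Or.inr k5)
    rw [k3, div_one, hv', dt_ac, ← hv'] at h
    rw [ac_mul, ← hv', db_G, e0]
    have e1 : |dt (D.w i) v' * dt (D.w (i + 1)) v'| = dt (D.w (i + 1)) v' * dt v' (D.w i) := by
      rw [dt_swap (D.w i) v', neg_mul, abs_neg, mul_comm, abs_of_pos (mul_pos hi3 hi6)]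
    have e2 : dt (D.nu j) v = dt v' (D.w j) := by rw [dt_swap v', g2, neg_neg]
    rw [e1, e2]
    exact h
  · -- the front polygon
    have h6 : 0 < dt (D.nu (j + 1)) v := lt_of_le_of_ne h3 (Ne.symm (h0 _))
    obtain ⟨i, hi1, hi2, hi3, hi4⟩ := step_up (fun i => 0 < dt (D.nu i) v)
      (a := j + 1) (b := j - 1 + 2 * g) (by omega) h6 (by
        rw [D.nu_per, dt_neg_left]
        linarith)
    have hi5 : dt (D.nu (i + 1)) v < 0 := lt_of_le_of_ne (not_lt.1 hi4) (h0 _)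
    have hi6 : 0 < dt v (D.nu (i + 1)) := by rw [dt_swap]; linarith
    refine ⟨i, Or.inl ?_⟩
    have k1 : 0 < dt v (D.nu (j + 2 * g)) := by rw [D.nu_per, dt_neg_right, dt_swap]; linarith
    have k2 : 0 < dt (D.nu i) (D.nu (i + 1)) := nu_lt D hg (by omega) (by omega)
    have k3 : dt (D.n j) (D.nu (j + 2 * g)) = 1 := by
      rw [D.nu_per, dt_neg_right, D.dt_n_nu, neg_neg]
    have k4 := n_nu_nonneg D hg (i := i) (j := j) hi1 (by omega)
    have k5 : 0 < dt (D.nu (i + 1)) (D.nu (j + 2 * g)) := nu_lt D hg (by omega) (by omega)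
    have h := nest h2 hi3 hi6 k1 k2 (by rw [k3]; exact one_pos) k4 k5.le (Or.inr k5)
    rw [k3, div_one] at h
    rw [db_eq, e0]
    have e1 : |dt (D.nu i) v * dt (D.nu (i + 1)) v| = dt (D.nu i) v * dt v (D.nu (i + 1)) := by
      rw [dt_swap (D.nu (i + 1)), mul_neg, abs_neg, abs_of_pos (mul_pos hi3 hi6)]
    have e2 : dt (D.nu j) v = dt v (D.nu (j + 2 * g)) := by
      rw [D.nu_per, dt_neg_right, dt_swap v, neg_neg]
    rw [e1, e2]
    exact h

end Pool.Agent.ToCC
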