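import Pool.Agent.Lib.MP_305fdd_al.To.N.Disc
import Pool.Agent.Lib.MP_305fdd_al.To.Ch.Basic

/-!
# MP_305fdd_al, torsion: a vector which is not contracted by a group which is not cocompact
-/

set_option autoImplicit false

namespace Pool.Agent.ToCC

open Pool.Agent.ToN Pool.Agent.ToC Filter Topology

/-- the square of the euclidean norm -/
def nr (v : Fin 2 → ℝ) : ℝ := v 0 ^ 2 + v 1 ^ 2

/-- the sum of the squares of the entries -/
def nm (A : SLR) : ℝ := (A.1 0 0 ^ 2 + A.1 1 0 ^ 2) + (A.1 0 1 ^ 2 + A.1 1 1 ^ 2)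

theorem sq_le_nm (A : SLR) (i j : Fin 2) : A.1 i j ^ 2 ≤ nm A := by
  unfold nm
  have h1 := sq_nonneg (A.1 0 0)
  have h2 := sq_nonneg (A.1 0 1)
  have h3 := sq_nonneg (A.1 1 0)
  have h4 := sq_nonneg (A.1 1 1)
  fin_cases i <;> fin_cases j
  · change A.1 0 0 ^ 2 ≤ _
    linarith
  · change A.1 0 1 ^ 2 ≤ _
    linarith
  · change A.1 1 0 ^ 2 ≤ _
    linarith
  · change A.1 1 1 ^ 2 ≤ _
    linarith

theorem det1 (A : SLR) : A.1 0 0 * A.1 1 1 - A.1 0 1 * A.1 1 0 = 1 := by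
  have := A.2
  rwa [Matrix.det_fin_two] at this

theorem two_le_nm (A : SLR) : 2 ≤ nm A := by
  have h := det1 A
  unfold nm
  nlinarith [sq_nonneg (A.1 0 0 - A.1 1 1), sq_nonneg (A.1 0 1 + A.1 1 0)]

/-- the entries of `M Mᵀ` divided by the trace -/
noncomputable def Qm (A : SLR) : ℝ × ℝ × ℝ :=
  ((A.1 0 0 ^ 2 + A.1 0 1 ^ 2) / nm A, (A.1 0 0 * A.1 1 0 + A.1 0 1 * A.1 1 1) / nm A,
    (A.1 1 0 ^ 2 + A.1 1 1 ^ 2) / nm A)

theorem nm_mul (A M : SLR) : nm (A * M) = nm M * ((A.1 0 0 ^ 2 + A.1 1 0 ^ 2) * (Qm M).1 +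
    2 * (A.1 0 0 * A.1 0 1 + A.1 1 0 * A.1 1 1) * (Qm M).2.1 +
    (A.1 0 1 ^ 2 + A.1 1 1 ^ 2) * (Qm M).2.2) := by
  have h := two_le_nm M
  have h1 : nm M * (Qm M).1 = M.1 0 0 ^ 2 + M.1 0 1 ^ 2 := by
    unfold Qm
    field_simp
  have h2 : nm M * (Qm M).2.1 = M.1 0 0 * M.1 1 0 + M.1 0 1 * M.1 1 1 := by
    unfold Qm
    field_simp
  have h3 : nm M * (Qm M).2.2 = M.1 1 0 ^ 2 + M.1 1 1 ^ 2 := by
    unfold Qm
    field_simp
  have e : nm M * ((A.1 0 0 ^ 2 + A.1 1 0 ^ 2) * (Qm M).1 +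
      2 * (A.1 0 0 * A.1 0 1 + A.1 1 0 * A.1 1 1) * (Qm M).2.1 +
      (A.1 0 1 ^ 2 + A.1 1 1 ^ 2) * (Qm M).2.2) = (A.1 0 0 ^ 2 + A.1 1 0 ^ 2) * (nm M * (Qm M).1) +
      2 * (A.1 0 0 * A.1 0 1 + A.1 1 0 * A.1 1 1) * (nm M * (Qm M).2.1) +
      (A.1 0 1 ^ 2 + A.1 1 1 ^ 2) * (nm M * (Qm M).2.2) := by ring
  rw [e, h1, h2, h3]
  unfold nm
  have m : ∀ i j, (A * M).1 i j = A.1 i 0 * M.1 0 j + A.1 i 1 * M.1 1 j := fun i j => by
    rw [Matrix.SpecialLinearGroup.coe_mul, Matrix.mul_apply, Fin.sum_univ_two]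
  rw [m, m, m, m]
  ring

theorem nr_ac (A : SLR) (u : Fin 2 → ℝ) : nr (ac A u) = (A.1 0 0 ^ 2 + A.1 1 0 ^ 2) * u 0 ^ 2 +
    2 * (A.1 0 0 * A.1 0 1 + A.1 1 0 * A.1 1 1) * (u 0 * u 1) +
    (A.1 0 1 ^ 2 + A.1 1 1 ^ 2) * u 1 ^ 2 := by
  unfold nr
  rw [ac_zero_apply, ac_one_apply]
  ring

/-- if the image is not cocompact then there is a vector which is not contracted -/
theorem exists_min {G : Type} [Group G] (ρ : G →* SLR) (h : ¬ Coc (pr.comp ρ)) :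
    ∃ u : Fin 2 → ℝ, nr u = 1 ∧ ∀ x : G, 1 ≤ 2 * nr (ac (ρ x) u) := by
  -- matrices with large norm which cannot be made smaller
  have h1 : ∀ n : ℕ, ∃ M : SLR, (n : ℝ) ≤ nm M ∧ ∀ x : G, nm M ≤ 2 * nm (ρ x * M) := by
    intro n
    have h2 : ∃ H : SLR, ∀ x : G, (n : ℝ) ≤ nm (ρ x * H) := by
      by_contra hc
      push Not at hc
      apply h
      refine ⟨n + 1, fun H => ?_⟩
      obtain ⟨x, hx⟩ := hc H
      refine ⟨x, ρ x, rfl, fun i j => ?_⟩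
      have h3 := sq_le_nm (ρ x * H) i j
      have hn : (0 : ℝ) ≤ n := Nat.cast_nonneg n
      apply abs_le_of_sq_le_sq
      · nlinarith
      · linarith
    obtain ⟨H, hH⟩ := h2
    have hb : BddBelow (Set.range fun x : G => nm (ρ x * H)) :=
      ⟨n, by rintro _ ⟨x, rfl⟩; exact hH x⟩
    obtain ⟨m, hm⟩ : ∃ m, m = ⨅ x : G, nm (ρ x * H) := ⟨_, rfl⟩
    have hm2 : 2 ≤ m := by
      rw [hm]
      exact le_ciInf fun x => two_le_nm _
    obtain ⟨x, hx⟩ := exists_lt_of_ciInf_lt (f := fun x : G => nm (ρ x * H)) (a := 2 * m) (by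
      rw [← hm]
      linarith)
    refine ⟨ρ x * H, hH x, fun y => ?_⟩
    have h4 : m ≤ nm (ρ (y * x) * H) := by
      rw [hm]
      exact ciInf_le hb (y * x)
    rw [map_mul, mul_assoc] at h4
    have h5 : nm (ρ x * H) < 2 * m := hx
    linarith
  choose M hM1 hM2 using h1
  -- a limit of the normalised matrices
  have hK : IsCompact ((Set.Icc (0 : ℝ) 1) ×ˢ ((Set.Icc (-1 : ℝ) 1) ×ˢ (Set.Icc (0 : ℝ) 1))) :=
    isCompact_Icc.prod (isCompact_Icc.prod isCompact_Icc)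
  have hQs : ∀ n, (Qm (M n)).1 + (Qm (M n)).2.2 = 1 := by
    intro n
    have := two_le_nm (M n)
    unfold Qm
    rw [← add_div, div_eq_one_iff_eq (by linarith)]
    unfold nm
    ring
  have hQ0 : ∀ n, 0 ≤ (Qm (M n)).1 := fun n => by
    have := two_le_nm (M n)
    unfold Qm
    positivity
  have hQ1 : ∀ n, 0 ≤ (Qm (M n)).2.2 := fun n => by
    have := two_le_nm (M n)
    unfold Qm
    positivity
  have hQd : ∀ n, (Qm (M n)).1 * (Qm (M n)).2.2 - (Qm (M n)).2.1 ^ 2 = 1 / nm (M n) ^ 2 := by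
    intro n
    have h2 := two_le_nm (M n)
    have h3 := det1 (M n)
    unfold Qm
    have h4 : ((M n).1 0 0 ^ 2 + (M n).1 0 1 ^ 2) * ((M n).1 1 0 ^ 2 + (M n).1 1 1 ^ 2) -
        ((M n).1 0 0 * (M n).1 1 0 + (M n).1 0 1 * (M n).1 1 1) ^ 2 = 1 := by
      have e : ((M n).1 0 0 ^ 2 + (M n).1 0 1 ^ 2) * ((M n).1 1 0 ^ 2 + (M n).1 1 1 ^ 2) -
        ((M n).1 0 0 * (M n).1 1 0 + (M n).1 0 1 * (M n).1 1 1) ^ 2 =
        ((M n).1 0 0 * (M n).1 1 1 - (M n).1 0 1 * (M n).1 1 0) ^ 2 := by ring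
      rw [e, h3, one_pow]
    rw [div_mul_div_comm, div_pow, ← pow_two, ← sub_div, h4]
  have hmem : ∀ n, Qm (M n) ∈ (Set.Icc (0 : ℝ) 1) ×ˢ ((Set.Icc (-1 : ℝ) 1) ×ˢ
      (Set.Icc (0 : ℝ) 1)) := by
    intro n
    have h2 := hQs n
    have h3 := hQ0 n
    have h4 := hQ1 n
    have h5 := hQd n
    have h6 : 0 ≤ 1 / nm (M n) ^ 2 := by positivity
    refine ⟨⟨h3, by linarith⟩, ⟨?_, ?_⟩, ⟨h4, by linarith⟩⟩
    · nlinarith
    · nlinarith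
  obtain ⟨q, hq, φ, hφ, hlim⟩ := hK.tendsto_subseq hmem
  have l1 : Tendsto (fun n => (Qm (M (φ n))).1) atTop (𝓝 q.1) :=
    (continuous_fst.tendsto q).comp hlim
  have l2 : Tendsto (fun n => (Qm (M (φ n))).2.1) atTop (𝓝 q.2.1) :=
    ((continuous_fst.comp continuous_snd).tendsto q).comp hlim
  have l3 : Tendsto (fun n => (Qm (M (φ n))).2.2) atTop (𝓝 q.2.2) :=
    ((continuous_snd.comp continuous_snd).tendsto q).comp hlim
  have e1 : q.1 + q.2.2 = 1 := by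
    have h2 := l1.add l3
    refine tendsto_nhds_unique h2 ?_
    have : (fun n => (Qm (M (φ n))).1 + (Qm (M (φ n))).2.2) = fun _ => 1 := by
      funext n
      exact hQs _
    rw [this]
    exact tendsto_const_nhds
  have e2 : q.1 * q.2.2 - q.2.1 ^ 2 = 0 := by
    have h2 := (l1.mul l3).sub (l2.pow 2)
    refine tendsto_nhds_unique h2 ?_
    have h3 : (fun n => (Qm (M (φ n))).1 * (Qm (M (φ n))).2.2 - (Qm (M (φ n))).2.1 ^ 2) =
        fun n => 1 / nm (M (φ n)) ^ 2 := by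
      funext n
      exact hQd _
    rw [h3]
    have h4 : Tendsto (fun n => nm (M (φ n))) atTop atTop := by
      refine tendsto_atTop_mono (fun n => hM1 (φ n)) ?_
      exact tendsto_natCast_atTop_atTop.comp hφ.tendsto_atTop
    have h5 : Tendsto (fun n => nm (M (φ n)) ^ 2) atTop atTop :=
      (tendsto_pow_atTop (by norm_num)).comp h4
    have h6 := h5.inv_tendsto_atTop
    have h7 : (fun n => 1 / nm (M (φ n)) ^ 2) = (fun n => nm (M (φ n)) ^ 2)⁻¹ := by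
      funext n
      rw [one_div]
      rfl
    rw [h7]
    exact h6
  have e3 : ∀ x : G, 1 ≤ 2 * (((ρ x).1 0 0 ^ 2 + (ρ x).1 1 0 ^ 2) * q.1 +
      2 * ((ρ x).1 0 0 * (ρ x).1 0 1 + (ρ x).1 1 0 * (ρ x).1 1 1) * q.2.1 +
      ((ρ x).1 0 1 ^ 2 + (ρ x).1 1 1 ^ 2) * q.2.2) := by
    intro x
    have h2 := (((l1.const_mul ((ρ x).1 0 0 ^ 2 + (ρ x).1 1 0 ^ 2)).add
      (l2.const_mul (2 * ((ρ x).1 0 0 * (ρ x).1 0 1 + (ρ x).1 1 0 * (ρ x).1 1 1)))).add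
      (l3.const_mul ((ρ x).1 0 1 ^ 2 + (ρ x).1 1 1 ^ 2))).const_mul 2
    refine ge_of_tendsto' h2 fun n => ?_
    have h3 := hM2 (φ n) x
    rw [nm_mul] at h3
    have h4 := two_le_nm (M (φ n))
    nlinarith
  have q0 : 0 ≤ q.1 := hq.1.1
  have q2 : 0 ≤ q.2.2 := hq.2.2.1
  obtain ⟨s, hs, hs'⟩ : ∃ s : ℝ, s ^ 2 = 1 ∧ s * |q.2.1| = q.2.1 := by
    rcases le_or_gt 0 q.2.1 with h2 | h2
    · exact ⟨1, by norm_num, by rw [abs_of_nonneg h2, one_mul]⟩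
    · exact ⟨-1, by norm_num, by rw [abs_of_neg h2]; ring⟩
  have r1 : Real.sqrt q.1 ^ 2 = q.1 := Real.sq_sqrt q0
  have r2 : Real.sqrt q.2.2 ^ 2 = q.2.2 := Real.sq_sqrt q2
  have r3 : Real.sqrt q.1 * Real.sqrt q.2.2 = |q.2.1| := by
    rw [← Real.sqrt_mul q0, show q.1 * q.2.2 = q.2.1 ^ 2 by linarith, Real.sqrt_sq_eq_abs]
  refine ⟨![Real.sqrt q.1, s * Real.sqrt q.2.2], ?_, fun x => ?_⟩
  · simp only [nr, Matrix.cons_val_zero, Matrix.cons_val_one]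
    rw [mul_pow, hs, r1, r2, one_mul]
    exact e1
  · rw [nr_ac]
    simp only [Matrix.cons_val_zero, Matrix.cons_val_one]
    have h2 : Real.sqrt q.1 * (s * Real.sqrt q.2.2) = q.2.1 := by
      rw [← hs', ← r3]
      ring
    rw [h2, mul_pow, hs, r1, r2, one_mul]
    exact e3 x

end Pool.Agent.ToCC
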