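import Pool.Agent.Lib.MP_305fdd_al.To.CC.Inv
import Mathlib.Topology.MetricSpace.ProperSpace

/-!
# MP_305fdd_al, torsion room, block CC: every boundary point is conical

`conical`: for every vector `u ≠ 0` and `ε > 0` there is `x` with `‖ρ(x) u‖ < ε`.
-/

set_option autoImplicit false

namespace Pool.Agent.ToCC

open Pool.Agent.Su Pool.Agent.ToC

variable {g : ℕ} {D : Dat NN g} {V : Set (Fin 2 → ℝ)}

theorem continuous_dt (p : Fin 2 → ℝ) : Continuous fun v : Fin 2 → ℝ => dt p v := by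
  unfold dt
  fun_prop

theorem continuous_da (D : Dat NN g) (j : ℤ) : Continuous fun v : Fin 2 → ℝ => da D j v := by
  unfold da
  exact ((continuous_dt _).mul (continuous_dt _)).abs

theorem continuous_db (D : Dat NN g) (j : ℤ) : Continuous fun v : Fin 2 → ℝ => db D j v := by
  unfold db
  exact ((continuous_dt _).mul (continuous_dt _)).abs.mul continuous_const

theorem Inv.da_pos (hV : Inv D V) (hg : 1 ≤ g) (j : ℤ) {v : Fin 2 → ℝ} (hv : v ∈ V) :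
    0 < da D j v :=
  abs_pos.2 (mul_ne_zero (hV.nu_ne hg j hv) (hV.n_ne hg j hv))

/-- balance: a power of `c_j` makes the vector short -/
theorem Inv.balance (hV : Inv D V) (hg : 1 ≤ g) (j : ℤ) {v : Fin 2 → ℝ} (hv : v ∈ V) :
    ∃ v' ∈ V, da D j v' = da D j v ∧
      ‖v'‖ ^ 2 ≤ (2 * ‖D.nu j‖ ^ 2 + 2 * D.mu j ^ 2 * ‖D.n j‖ ^ 2) * da D j v := by
  have hm := mu_pos D j
  have h1 : 0 < |dt (D.n j) v| := abs_pos.2 (hV.n_ne hg j hv)
  have h2 : 0 < |dt (D.nu j) v| := abs_pos.2 (hV.nu_ne hg j hv)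
  obtain ⟨t, ht1, ht2⟩ := exists_mem_Ico_zpow (div_pos h2 h1)
    (show 1 < D.mu j ^ 2 by have := one_lt_mu D j; nlinarith)
  have hsq : ∀ t : ℤ, (D.mu j ^ 2) ^ t = D.mu j ^ t * D.mu j ^ t := by
    intro t
    rw [← mul_zpow, ← sq]
  have hp : 0 < D.mu j ^ t := zpow_pos hm t
  have hinv : D.mu j ^ (-t) * D.mu j ^ t = 1 := by
    rw [← zpow_add₀ hm.ne', neg_add_cancel, zpow_zero]
  have hq : 0 < D.mu j ^ (-t) := zpow_pos hm _
  rw [le_div_iff₀ h1, hsq] at ht1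
  rw [div_lt_iff₀ h1, hsq, zpow_add_one₀ hm.ne'] at ht2
  refine ⟨_, hV.c_mem hg j t hv, da_zpow D j t v, ?_⟩
  have h3 := axis_norm_le D j (ac (D.c j ^ t) v)
  rw [dt_nu_zpow, dt_n_zpow, abs_mul, abs_mul, abs_of_pos hp, abs_of_pos hq] at h3
  set A := D.mu j ^ t * |dt (D.n j) v| with hA
  set B := D.mu j ^ (-t) * |dt (D.nu j) v| with hB
  have hA0 : 0 < A := mul_pos hp h1
  have hB0 : 0 < B := mul_pos hq h2
  have hAB : da D j v = A * B := by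
    rw [da, abs_mul, hA, hB]
    linear_combination (-(|dt (D.nu j) v| * |dt (D.n j) v|)) * hinv
  have h4 : A ≤ B := by
    have : D.mu j ^ t * A ≤ D.mu j ^ t * B := by
      rw [hA, hB, ← mul_assoc, ← mul_assoc, mul_comm (D.mu j ^ t) (D.mu j ^ (-t)), hinv, one_mul]
      exact ht1
    exact le_of_mul_le_mul_left this hp
  have h5 : B ≤ D.mu j ^ 2 * A := by
    have : D.mu j ^ t * B ≤ D.mu j ^ t * (D.mu j ^ 2 * A) := by
      rw [hA, hB, ← mul_assoc, mul_comm (D.mu j ^ t) (D.mu j ^ (-t)), hinv, one_mul]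
      refine ht2.le.trans (le_of_eq ?_)
      ring
    exact le_of_mul_le_mul_left this hp
  have h6 : A ^ 2 ≤ A * B := by nlinarith
  have h7 : B ^ 2 ≤ D.mu j ^ 2 * (A * B) := by nlinarith
  rw [hAB]
  set N1 := ‖D.nu j‖
  set N2 := ‖D.n j‖
  have h8 : ‖ac (D.c j ^ t) v‖ ^ 2 ≤ (A * N1 + B * N2) ^ 2 :=
    pow_le_pow_left₀ (norm_nonneg _) h3 2
  have h9 : (A * N1 + B * N2) ^ 2 ≤ 2 * (A ^ 2 * N1 ^ 2) + 2 * (B ^ 2 * N2 ^ 2) := by
    nlinarith [sq_nonneg (A * N1 - B * N2)]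
  have h10 : A ^ 2 * N1 ^ 2 ≤ (A * B) * N1 ^ 2 := mul_le_mul_of_nonneg_right h6 (sq_nonneg _)
  have h11 : B ^ 2 * N2 ^ 2 ≤ (D.mu j ^ 2 * (A * B)) * N2 ^ 2 :=
    mul_le_mul_of_nonneg_right h7 (sq_nonneg _)
  calc _ ≤ _ := h8
    _ ≤ _ := h9
    _ ≤ 2 * ((A * B) * N1 ^ 2) + 2 * ((D.mu j ^ 2 * (A * B)) * N2 ^ 2) := by linarith
    _ = _ := by ring

/-- a bounded part of a closed set has a minimum -/
theorem exists_min_of_bdd (hcl : IsClosed V) {f : (Fin 2 → ℝ) → ℝ} (hf : Continuous f) {R : ℝ}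
    (hne : ∃ v ∈ V, ‖v‖ ≤ R) : ∃ v₀ ∈ V, ∀ v ∈ V, ‖v‖ ≤ R → f v₀ ≤ f v := by
  have hK : IsCompact (V ∩ Metric.closedBall 0 R) := (isCompact_closedBall 0 R).inter_left hcl
  obtain ⟨v, hv, hR⟩ := hne
  obtain ⟨v₀, h0, h1⟩ := hK.exists_isMinOn ⟨v, hv, by simpa using hR⟩ hf.continuousOn
  refine ⟨v₀, h0.1, fun v hv hR => h1 ⟨hv, by simpa using hR⟩⟩

/-- the least depth of one axis is attained -/
theorem Inv.min_axis (hV : Inv D V) (hg : 1 ≤ g) (j : ℤ) :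
    ∃ v₀ ∈ V, ∀ v ∈ V, da D j v₀ ≤ da D j v := by
  obtain ⟨v1, hv1⟩ := hV.ne
  obtain ⟨v2, hv2, h2, h2'⟩ := hV.balance hg j hv1
  set K := (2 * ‖D.nu j‖ ^ 2 + 2 * D.mu j ^ 2 * ‖D.n j‖ ^ 2) with hK
  have hK0 : 0 ≤ K := by positivity
  have hQ : 0 ≤ K * da D j v1 := mul_nonneg hK0 (da_nonneg D j v1)
  set R := Real.sqrt (K * da D j v1) with hR
  obtain ⟨v₀, h0, h1⟩ := exists_min_of_bdd hV.cl (continuous_da D j) (R := R)
    ⟨v2, hv2, by rw [hR]; exact Real.le_sqrt_of_sq_le h2'⟩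
  refine ⟨v₀, h0, fun v hv => ?_⟩
  rcases le_or_gt (da D j v) (da D j v1) with h3 | h3
  · obtain ⟨v3, hv3, h4, h4'⟩ := hV.balance hg j hv
    rw [← h4]
    refine h1 v3 hv3 ?_
    rw [hR]
    exact Real.le_sqrt_of_sq_le (h4'.trans (mul_le_mul_of_nonneg_left h3 hK0))
  · have := h1 v2 hv2 (by rw [hR]; exact Real.le_sqrt_of_sq_le h2')
    rw [h2] at this
    linarith

end Pool.Agent.ToCC
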