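import Pool.Agent.Lib.MP_305fdd_al.To.CC.Cone

/-!
# MP_305fdd_al, torsion, block CC: the walk through the polygons
-/

set_option autoImplicit false

namespace Pool.Agent.ToCC

open Pool.Agent.ToN Pool.Agent.ToC Pool.Agent.Su

/-- a uniform constant for finitely many conditions -/
theorem unif {ι : Type} [Finite ι] (P : ι → ℝ → Prop) (h : ∀ i, ∃ δ, 0 < δ ∧ P i δ)
    (hm : ∀ i δ δ', 0 < δ' → δ' ≤ δ → P i δ → P i δ') : ∃ δ, 0 < δ ∧ ∀ i, P i δ := by
  choose d hd hP using h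
  rcases isEmpty_or_nonempty ι with h1 | h1
  · exact ⟨1, one_pos, fun i => h1.elim i⟩
  · obtain ⟨i, hi⟩ := Finite.exists_min d
    exact ⟨d i, hd i, fun k => hm k _ _ (hd i) (hi k) (hP k)⟩

theorem nr_comb (a b : Fin 2 → ℝ) (x y : ℝ) :
    nr (x • a + y • b) ≤ (x ^ 2 + y ^ 2) * (nr a + nr b) := by
  simp only [nr, Pi.add_apply, Pi.smul_apply, smul_eq_mul]
  nlinarith [sq_nonneg (x * b 0 - y * a 0), sq_nonneg (x * b 1 - y * a 1)]

theorem nr_nonneg (a : Fin 2 → ℝ) : 0 ≤ nr a := by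
  unfold nr
  positivity

theorem nr_neg (a : Fin 2 → ℝ) : nr (-a) = nr a := by
  simp only [nr, Pi.neg_apply]
  ring

theorem nr_pos {a b : Fin 2 → ℝ} (h : dt a b ≠ 0) : 0 < nr a := by
  rcases (nr_nonneg a).eq_or_lt with h1 | h1
  · exfalso
    unfold nr at h1
    have h2 : a 0 = 0 := by nlinarith [sq_nonneg (a 0), sq_nonneg (a 1)]
    have h3 : a 1 = 0 := by nlinarith [sq_nonneg (a 0), sq_nonneg (a 1)]
    apply h
    rw [dt, h2, h3]
    ring
  · exact h1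

theorem sep_cone {a b c d : Fin 2 → ℝ} (h1 : 0 < dt a c) (h2 : 0 < dt a d) (h3 : 0 < dt b c)
    (h4 : 0 < dt b d) : ∃ δ, 0 < δ ∧ ∀ v w, v ∈ cone NN (a, b) → w ∈ cone NN (c, d) →
      δ * (nr v * nr w) ≤ (dt v w) ^ 2 := by
  obtain ⟨e, he⟩ : ∃ e, e = min (min (dt a c) (dt a d)) (min (dt b c) (dt b d)) := ⟨_, rfl⟩
  have e0 : 0 < e := by
    rw [he]
    exact lt_min (lt_min h1 h2) (lt_min h3 h4)
  have e1 : e ≤ dt a c := by rw [he]; exact (min_le_left _ _).trans (min_le_left _ _)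
  have e2 : e ≤ dt a d := by rw [he]; exact (min_le_left _ _).trans (min_le_right _ _)
  have e3 : e ≤ dt b c := by rw [he]; exact (min_le_right _ _).trans (min_le_left _ _)
  have e4 : e ≤ dt b d := by rw [he]; exact (min_le_right _ _).trans (min_le_right _ _)
  have n1 : 0 < nr a := nr_pos h1.ne'
  have n2 : 0 < nr b := nr_pos h3.ne'
  have n3 : 0 < nr c := nr_pos (b := a) (by rw [dt_swap]; exact neg_ne_zero.2 h1.ne')
  have n4 : 0 < nr d := nr_pos (b := a) (by rw [dt_swap]; exact neg_ne_zero.2 h2.ne')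
  refine ⟨e ^ 2 / ((nr a + nr b) * (nr c + nr d)), by positivity, ?_⟩
  rintro v w ⟨x, hx, y, hy, rfl⟩ ⟨z, hz, t, ht, rfl⟩
  have hx' : 0 ≤ x := hx
  have hy' : 0 ≤ y := hy
  have hz' : 0 ≤ z := hz
  have ht' : 0 ≤ t := ht
  have k1 : dt (x • (a, b).1 + y • (a, b).2) (z • (c, d).1 + t • (c, d).2) =
      x * z * dt a c + x * t * dt a d + y * z * dt b c + y * t * dt b d := by
    simp only [dt_add_left, dt_add_right, dt_smul_left, dt_smul_right]
    ring
  have k2 : e * ((x + y) * (z + t)) ≤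
      dt (x • (a, b).1 + y • (a, b).2) (z • (c, d).1 + t • (c, d).2) := by
    rw [k1]
    have j1 := mul_le_mul_of_nonneg_left e1 (mul_nonneg hx' hz')
    have j2 := mul_le_mul_of_nonneg_left e2 (mul_nonneg hx' ht')
    have j3 := mul_le_mul_of_nonneg_left e3 (mul_nonneg hy' hz')
    have j4 := mul_le_mul_of_nonneg_left e4 (mul_nonneg hy' ht')
    linarith
  have k3 : (e * ((x + y) * (z + t))) ^ 2 ≤
      (dt (x • (a, b).1 + y • (a, b).2) (z • (c, d).1 + t • (c, d).2)) ^ 2 :=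
    pow_le_pow_left₀ (by positivity) k2 2
  refine le_trans ?_ k3
  have m1 := nr_comb a b x y
  have m2 := nr_comb c d z t
  have m3 : nr (x • a + y • b) * nr (z • c + t • d) ≤
      ((x + y) ^ 2 * (nr a + nr b)) * ((z + t) ^ 2 * (nr c + nr d)) := by
    have q1 : (x ^ 2 + y ^ 2) * (nr a + nr b) ≤ (x + y) ^ 2 * (nr a + nr b) := by
      apply mul_le_mul_of_nonneg_right _ (by positivity)
      nlinarith [mul_nonneg hx' hy']
    have q2 : (z ^ 2 + t ^ 2) * (nr c + nr d) ≤ (z + t) ^ 2 * (nr c + nr d) := by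
      apply mul_le_mul_of_nonneg_right _ (by positivity)
      nlinarith [mul_nonneg hz' ht']
    exact mul_le_mul (m1.trans q1) (m2.trans q2) (nr_nonneg _) (by positivity)
  calc e ^ 2 / ((nr a + nr b) * (nr c + nr d)) * (nr (x • a + y • b) * nr (z • c + t • d))
      ≤ e ^ 2 / ((nr a + nr b) * (nr c + nr d)) *
        (((x + y) ^ 2 * (nr a + nr b)) * ((z + t) ^ 2 * (nr c + nr d))) :=
        mul_le_mul_of_nonneg_left m3 (by positivity)
    _ = (e * ((x + y) * (z + t))) ^ 2 := by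
        field_simp

theorem sep_In {a b c d : Fin 2 → ℝ} (h1 : 0 < dt a c) (h2 : 0 < dt a d) (h3 : 0 < dt b c)
    (h4 : 0 < dt b d) : ∃ δ, 0 < δ ∧ ∀ v w, In NN (a, b) v → In NN (c, d) w →
      δ * (nr v * nr w) ≤ (dt v w) ^ 2 := by
  obtain ⟨δ, h0, h⟩ := sep_cone h1 h2 h3 h4
  refine ⟨δ, h0, ?_⟩
  rintro v w (hv | hv) (hw | hw)
  · exact h v w hv hw
  · have := h _ _ hv hw
    rwa [nr_neg, dt_neg_right, neg_sq] at this
  · have := h _ _ hv hw
    rwa [nr_neg, dt_neg_left, neg_sq] at this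
  · have := h _ _ hv hw
    rwa [nr_neg, nr_neg, dt_neg_left, dt_neg_right, neg_neg] at this

theorem In_smul {p q v : Fin 2 → ℝ} {e : ℝ} (he : e = 1 ∨ e = -1) (h : In NN (e • p, e • q) v) :
    In NN (p, q) v := by
  rcases he with rfl | rfl
  · rwa [one_smul, one_smul] at h
  · rw [neg_smul, neg_smul, one_smul, one_smul] at h
    rcases h with ⟨a, ha, b, hb, h⟩ | ⟨a, ha, b, hb, h⟩
    · right
      refine ⟨a, ha, b, hb, ?_⟩
      rw [h]
      simp only [smul_neg]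
      abel
    · left
      refine ⟨a, ha, b, hb, ?_⟩
      rw [← neg_neg v, h]
      simp only [smul_neg]
      abel

/-- a matrix is bounded by its values on a basis -/
theorem bound_of {a b : Fin 2 → ℝ} (h : 0 < dt a b) (C : ℝ) : ∃ R : ℝ, ∀ M : SLR,
    nr (ac M a) ≤ C → nr (ac M b) ≤ C → ∀ i j, |M.1 i j| ≤ R := by
  refine ⟨(|a 0| + |a 1| + |b 0| + |b 1|) * (C + 1) / dt a b, fun M h1 h2 i j => ?_⟩
  have key : ∀ v : Fin 2 → ℝ, nr v ≤ C → ∀ i, |v i| ≤ C + 1 := by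
    intro v hv i
    have h3 : v i ^ 2 ≤ C := by
      refine le_trans ?_ hv
      unfold nr
      fin_cases i
      · change v 0 ^ 2 ≤ _
        linarith [sq_nonneg (v 1)]
      · change v 1 ^ 2 ≤ _
        linarith [sq_nonneg (v 0)]
    have h4 : 0 ≤ C := (sq_nonneg _).trans h3
    apply abs_le_of_sq_le_sq
    · nlinarith
    · linarith
  rw [le_div_iff₀ h]
  have c0 : 0 ≤ C + 1 := by
    have := key _ h1 0
    exact (abs_nonneg _).trans this
  have main : ∀ p q X Y : ℝ, |X| ≤ C + 1 → |Y| ≤ C + 1 → |p * X + q * Y| ≤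
      (|p| + |q|) * (C + 1) := by
    intro p q X Y hX hY
    calc |p * X + q * Y| ≤ |p * X| + |q * Y| := abs_add_le _ _
      _ = |p| * |X| + |q| * |Y| := by rw [abs_mul, abs_mul]
      _ ≤ |p| * (C + 1) + |q| * (C + 1) := by
          apply add_le_add
          · exact mul_le_mul_of_nonneg_left hX (abs_nonneg _)
          · exact mul_le_mul_of_nonneg_left hY (abs_nonneg _)
      _ = (|p| + |q|) * (C + 1) := by ring
  have hE : |M.1 i j| * dt a b = |M.1 i j * dt a b| := by rw [abs_mul, abs_of_pos h]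
  rw [hE]
  have n0 := abs_nonneg (a 0)
  have n1 := abs_nonneg (a 1)
  have n2 := abs_nonneg (b 0)
  have n3 := abs_nonneg (b 1)
  have a0 : ∀ i, (ac M a) i = M.1 i 0 * a 0 + M.1 i 1 * a 1 := by
    intro i
    fin_cases i
    · exact ac_zero_apply M a
    · exact ac_one_apply M a
  have b0 : ∀ i, (ac M b) i = M.1 i 0 * b 0 + M.1 i 1 * b 1 := by
    intro i
    fin_cases i
    · exact ac_zero_apply M b
    · exact ac_one_apply M b
  fin_cases j
  · change |M.1 i 0 * dt a b| ≤ _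
    have e : M.1 i 0 * dt a b = b 1 * (ac M a) i + (-(a 1)) * (ac M b) i := by
      rw [a0, b0, dt]; ring
    rw [e]
    refine (main _ _ _ _ (key _ h1 i) (key _ h2 i)).trans ?_
    rw [abs_neg]
    apply mul_le_mul_of_nonneg_right _ c0
    linarith
  · change |M.1 i 1 * dt a b| ≤ _
    have e : M.1 i 1 * dt a b = (-(b 0)) * (ac M a) i + a 0 * (ac M b) i := by
      rw [a0, b0, dt]; ring
    rw [e]
    refine (main _ _ _ _ (key _ h1 i) (key _ h2 i)).trans ?_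
    rw [abs_neg]
    apply mul_le_mul_of_nonneg_right _ c0
    linarith

section

variable {g : ℕ} (D : Dat NN g)

/-- uniform signs of the shift -/
theorem shift1 (t : ℤ) : ∃ e : ℝ, (e = 1 ∨ e = -1) ∧ ∀ j, D.nu (j + 2 * g * t) = e • D.nu j ∧
    D.n (j + 2 * g * t) = e • D.n j := by
  induction t using Int.induction_on with
  | zero => exact ⟨1, Or.inl rfl, fun j => by simp⟩
  | succ t ih =>
    obtain ⟨e, he, h⟩ := ih
    refine ⟨-e, ?_, fun j => ?_⟩
    · rcases he with rfl | rfl <;> simp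
    · have s0 : j + 2 * (g : ℤ) * ((t : ℤ) + 1) = (j + 2 * g * t) + 2 * g := by ring
      rw [s0, D.nu_per, D.n_per, (h j).1, (h j).2, neg_smul, neg_smul]
      exact ⟨rfl, rfl⟩
  | pred t ih =>
    obtain ⟨e, he, h⟩ := ih
    refine ⟨-e, ?_, fun j => ?_⟩
    · rcases he with rfl | rfl <;> simp
    · have s0 : j + 2 * (g : ℤ) * (-(t : ℤ)) = (j + 2 * g * (-(t : ℤ) - 1)) + 2 * g := by ring
      have h1 := h j
      rw [s0, D.nu_per, D.n_per] at h1
      rw [neg_smul, neg_smul, ← h1.1, ← h1.2, neg_neg, neg_neg]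
      exact ⟨rfl, rfl⟩

/-- the four determinants of two gaps -/
theorem dets (hg : 2 ≤ g) {m l : ℤ} (h1 : m < l) (h2 : l < m + 2 * g) :
    0 < dt (D.n m) (D.n l) ∧ 0 < dt (D.n m) (D.nu (l + 1)) ∧ 0 < dt (D.nu (m + 1)) (D.n l) ∧
      0 < dt (D.nu (m + 1)) (D.nu (l + 1)) := by
  have P := D.pol_nu (g := g) (by omega)
  have pos : ∀ i j : ℤ, i < j → j < i + 2 * g → 0 < dt (D.nu i) (D.nu j) := fun i j h3 h4 =>
    P.pos i j h3 (by push_cast; exact h4)
  have nn : ∀ i j : ℤ, i ≤ j → j ≤ i + 2 * g → 0 ≤ dt (D.nu i) (D.nu j) := by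
    intro i j h3 h4
    rcases h3.eq_or_lt with rfl | h3
    · rw [dt_self]
    rcases h4.eq_or_lt with rfl | h4
    · rw [D.nu_per, dt_neg_right, dt_self, neg_zero]
    · exact (pos i j h3 h4).le
  have am := (al_pos D hg m).le
  have al := (al_pos D hg l).le
  have k4 : 0 < dt (D.nu (m + 1)) (D.nu (l + 1)) := pos _ _ (by omega) (by omega)
  have k3 : 0 < dt (D.nu (m + 1)) (D.n l) := by
    rw [Dat.n, dt_smul_right, dt_add_right, dt_smul_right]
    have := mul_nonneg al (nn (m + 1) l (by omega) (by omega))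
    exact mul_pos (lei_pos D l) (by linarith)
  have k2 : 0 < dt (D.n m) (D.nu (l + 1)) := by
    rw [Dat.n, dt_smul_left, dt_add_left, dt_smul_left]
    have := mul_nonneg am (nn m (l + 1) (by omega) (by omega))
    exact mul_pos (lei_pos D m) (by linarith)
  have k5 : 0 ≤ dt (D.nu m) (D.n l) := by
    rw [Dat.n, dt_smul_right, dt_add_right, dt_smul_right]
    have h3 := mul_nonneg al (nn m l (by omega) (by omega))
    have h4 := nn m (l + 1) (by omega) (by omega)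
    exact mul_nonneg (lei_pos D l).le (by linarith)
  refine ⟨?_, k2, k3, k4⟩
  have e0 : D.n m = D.lei m • (D.nu (m + 1) + D.al m • D.nu m) := rfl
  have e1 : dt (D.n m) (D.n l) = D.lei m * (dt (D.nu (m + 1)) (D.n l) +
      D.al m * dt (D.nu m) (D.n l)) := by
    rw [e0, dt_smul_left, dt_add_left, dt_smul_left]
  rw [e1]
  have := mul_nonneg am k5
  exact mul_pos (lei_pos D m) (by linarith)

/-- the gaps are separated -/
theorem sep (hg : 2 ≤ g) : ∃ δ, 0 < δ ∧ ∀ m l : ℤ, Nd g m l → ∀ v w,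
    In NN (D.n m, D.nu (m + 1)) v → In NN (D.n l, D.nu (l + 1)) w →
      δ * (nr v * nr w) ≤ (dt v w) ^ 2 := by
  obtain ⟨δ, h0, h⟩ := unif (ι := Fin (2 * g) × Fin (4 * g)) (fun i δ =>
    (i.1 : ℤ) < (i.2 : ℤ) → (i.2 : ℤ) < (i.1 : ℤ) + 2 * g → ∀ v w,
      In NN (D.n (i.1 : ℤ), D.nu ((i.1 : ℤ) + 1)) v →
      In NN (D.n (i.2 : ℤ), D.nu ((i.2 : ℤ) + 1)) w → δ * (nr v * nr w) ≤ (dt v w) ^ 2) (by
    rintro ⟨i, k⟩
    by_cases h : (i : ℤ) < (k : ℤ) ∧ (k : ℤ) < (i : ℤ) + 2 * g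
    · obtain ⟨d1, d2, d3, d4⟩ := dets D hg h.1 h.2
      obtain ⟨δ, h1, h2⟩ := sep_In d1 d2 d3 d4
      exact ⟨δ, h1, fun _ _ => h2⟩
    · exact ⟨1, one_pos, fun h1 h2 => absurd ⟨h1, h2⟩ h⟩) (by
    intro i δ δ' h1 h2 h3 h4 h5 v w hv hw
    refine le_trans ?_ (h3 h4 h5 v w hv hw)
    exact mul_le_mul_of_nonneg_right h2 (mul_nonneg (nr_nonneg _) (nr_nonneg _)))
  refine ⟨δ, h0, fun m l hml v w hv hw => ?_⟩
  obtain ⟨m₀, t, a1, a2, rfl⟩ := Dat.exists_rep (show 1 ≤ g by omega) (-1) m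
  obtain ⟨l₀, s, b1, b2, rfl⟩ := Dat.exists_rep (show 1 ≤ g by omega) m₀ l
  obtain ⟨e, he, h3⟩ := shift1 D t
  obtain ⟨f, hf, h4⟩ := shift1 D s
  have b3 : l₀ ≠ m₀ + 2 * g := by
    rintro rfl
    exact hml ⟨1 + s - t, by ring⟩
  have c1 : m₀ + 2 * g * t + 1 = (m₀ + 1) + 2 * g * t := by ring
  have c2 : l₀ + 2 * g * s + 1 = (l₀ + 1) + 2 * g * s := by ring
  rw [c1, (h3 _).1, (h3 _).2] at hv
  rw [c2, (h4 _).1, (h4 _).2] at hw
  obtain ⟨i, hi⟩ := Int.eq_ofNat_of_zero_le (show 0 ≤ m₀ by omega)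
  obtain ⟨k, hk⟩ := Int.eq_ofNat_of_zero_le (show 0 ≤ l₀ by omega)
  subst hi hk
  exact h (⟨i, by omega⟩, ⟨k, by omega⟩) (by exact b1)
    (by change (k : ℤ) < (i : ℤ) + 2 * g; omega) v w (In_smul he hv) (In_smul hf hw)

theorem not_D_C (hg : 2 ≤ g) (m l : ℤ) : ¬ Mp NN 1 (D.cD m) (D.cC l) := by
  intro h
  obtain ⟨e, he, h1⟩ := D.nu_mem_cD (show 1 ≤ g by omega) m (l + 2)
  have h2 := In_mp h (Or.inl h1 : In NN (D.cD m) (e • D.nu (l + 2)))
  rw [ac_smul, ac_one] at h2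
  have h3 := In_sgn he h2
  rw [Dat.cC, In_iff (D.le_pos l (by omega))] at h3
  have P := D.pol_nu (g := g) (by omega)
  have p1 : 0 < dt (D.nu l) (D.nu (l + 2)) := P.pos _ _ (by omega) (by push_cast; omega)
  have p2 : 0 < dt (D.nu (l + 1)) (D.nu (l + 2)) := P.pos _ _ (by omega) (by push_cast; omega)
  rw [dt_swap (D.nu (l + 2)) (D.nu (l + 1))] at h3
  nlinarith

/-- the states of the walk -/
structure St (u : Fin 2 → ℝ) (m₀ : ℤ) where
  x : SurfaceGroup g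
  l : ℤ
  m : ℤ
  hx : x ∈ FF g
  h1 : Mp NN (D.rho x) (D.cD m₀) (D.cC l)
  h2 : In NN (D.cC m) (ac (D.rho x) u)
  h3 : Nd g l m

variable {D}

theorem exists_next (hg : 2 ≤ g) {u : Fin 2 → ℝ} {m₀ : ℤ} (s : St D u m₀) :
    ∃ s' : St D u m₀, ∃ z, s'.x = z * s.x ∧ Mp NN (D.rho z) (D.cD s.m) (D.cC s'.l) := by
  obtain ⟨l, m', h1, h2, h3⟩ := step D (show 1 ≤ g by omega) s.h2
  have h4 := D.Mp_rho_pair (show 1 ≤ g by omega) h1.symm
  refine ⟨⟨(Gz g l)⁻¹ * Gz g s.m * s.x, l, m', ?_, ?_, ?_, h2⟩, _, rfl, h4⟩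
  · exact Subgroup.mul_mem _ (Gz_mem l s.m) s.hx
  · rw [map_mul]
    have h5 := h4.comp ((D.Mp_C_D (show 1 ≤ g by omega) s.h3.symm).comp s.h1)
    rwa [one_mul] at h5
  · rw [map_mul, ac_mul]
    exact h3

theorem exists_St (hg : 2 ≤ g) (u : Fin 2 → ℝ) : ∃ m₀, Nonempty (St D u m₀) := by
  have hg1 : 1 ≤ g := by omega
  -- a cone which contains `u`
  have h0 : ∃ m, In NN (D.cC m) u := by
    by_cases h : In NN (D.cC 0) u
    · exact ⟨0, h⟩
    · have h1 : In NN (D.cD 0) u := by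
        rw [Dat.cC, In_iff (D.le_pos 0 hg1)] at h
        push Not at h
        rw [Dat.cD, In_iff (by rw [dt_neg_right, ← dt_swap]; exact D.le_pos 0 hg1), dt_neg_right,
          ← dt_swap, dt_swap (D.nu (0 + 1)) u]
        linarith
      obtain ⟨m, -, -, h2⟩ := cover D hg1 h1
      exact ⟨m, h2⟩
  obtain ⟨m, hm⟩ := h0
  obtain ⟨l, m', h1, h2, h3⟩ := step D hg1 hm
  exact ⟨m, ⟨⟨(Gz g l)⁻¹ * Gz g m, l, m', Gz_mem l m, D.Mp_rho_pair hg1 h1.symm, h3, h2⟩⟩⟩

/-- the reference vectors -/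
theorem bound1 (hg : 2 ≤ g) {u : Fin 2 → ℝ} {m₀ : ℤ} {c δ : ℝ} (hc : 0 < c) (hδ : 0 < δ)
    (hu : ∀ x, c ≤ nr (ac (D.rho x) u)) (h : NJ D u)
    (hs : ∀ m l : ℤ, Nd g m l → ∀ v w, In NN (D.n m, D.nu (m + 1)) v →
      In NN (D.n l, D.nu (l + 1)) w → δ * (nr v * nr w) ≤ (dt v w) ^ 2)
    (s : St D u m₀) {p : ℤ} (h1 : Nd g m₀ p) (h2 : Nd g s.l p) :
    nr (ac (D.rho s.x) (D.nu p + D.n p)) ≤ (dt u (D.nu p + D.n p)) ^ 2 / (δ * c) := by
  have hg1 : 1 ≤ g := by omega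
  set a := D.nu p + D.n p with ha
  have ha1 : a ∈ cone NN (D.cJ p) := cone_add (fst_mem_cone (D.cJ p)) (snd_mem_cone (D.cJ p))
  -- beyond the edge `l`
  have k1 : In NN (D.cC s.l) (ac (D.rho s.x) a) := by
    have h3 := s.h1.comp ((D.Mp_C_D hg1 h1).comp (D.Mp_J_C hg p))
    rw [mul_one, mul_one] at h3
    exact In_mp h3 (Or.inl ha1)
  -- not behind the line `l`
  have k2 : ¬ In NN (D.cJ s.l) (ac (D.rho s.x) a) := by
    obtain ⟨e, he, ⟨a1, ha1', b1, hb1, h4⟩, ⟨a2, ha2', b2, hb2, h5⟩⟩ :=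
      D.fJ hg s.hx (i := s.l) (j := p) (Or.inl h2)
    have ha1' : 0 ≤ a1 := ha1'
    have hb1' : 0 ≤ b1 := hb1
    have ha2' : 0 ≤ a2 := ha2'
    have hb2' : 0 ≤ b2 := hb2
    have h6 : dt (e • ac (D.rho s.x) (D.cJ p).1) (e • ac (D.rho s.x) (D.cJ p).2) = 1 := by
      rw [dt_smul_left, dt_smul_right, dt_ac, ← mul_assoc, sgn_sq he, one_mul]
      exact D.dt_nu_n p
    rw [h4, h5] at h6
    have h7 : dt (a1 • (D.cK s.l).1 + b1 • (D.cK s.l).2) (a2 • (D.cK s.l).1 + b2 • (D.cK s.l).2) =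
        a1 * b2 - b1 * a2 := by
      simp only [Dat.cK, dt_add_left, dt_add_right, dt_smul_left, dt_smul_right, dt_self,
        dt_neg_left, dt_neg_right, D.dt_n_nu, D.dt_nu_n]
      ring
    rw [h7] at h6
    have h8 : e • ac (D.rho s.x) a = (a1 + a2) • D.n s.l - (b1 + b2) • D.nu s.l := by
      rw [ha, ac_add, smul_add]
      have h4' : e • ac (D.rho s.x) (D.nu p) = a1 • (D.cK s.l).1 + b1 • (D.cK s.l).2 := h4
      have h5' : e • ac (D.rho s.x) (D.n p) = a2 • (D.cK s.l).1 + b2 • (D.cK s.l).2 := h5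
      rw [h4', h5', Dat.cK, add_smul, add_smul]
      simp only [smul_neg]
      abel
    intro hc
    have h9 := In_sgn' he hc
    rw [h8, Dat.cJ, In_iff (by rw [D.dt_nu_n]; exact one_pos), sub_eq_add_neg, dt_add_left,
      dt_add_right, dt_neg_left, dt_neg_right, dt_smul_left, dt_smul_left, dt_smul_right,
      dt_smul_right, dt_self, dt_self, D.dt_nu_n, mul_one, mul_one, mul_zero, mul_zero, neg_zero,
      add_zero, zero_add] at h9
    have i1 : 0 < a1 + a2 := by nlinarith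
    have i2 : 0 < b1 + b2 := by nlinarith
    nlinarith [mul_pos i1 i2]
  have k3 := In_gap D hg k1 k2
  have k4 := In_gap D hg s.h2 (h s.x s.hx s.m)
  have k5 := hs s.m s.l s.h3.symm _ _ k4 k3
  rw [dt_ac] at k5
  rw [le_div_iff₀ (by positivity)]
  refine le_trans ?_ k5
  have k6 := hu s.x
  have k7 := nr_nonneg (ac (D.rho s.x) a)
  have k8 := mul_le_mul_of_nonneg_right k6 k7
  nlinarith

/-- there is no vector which is not contracted and not behind a line -/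
theorem polys (hg : 2 ≤ g)
    (hfin : ∀ r : ℝ, {x : SurfaceGroup g | ∀ i j, |(D.rho x).1 i j| ≤ r}.Finite)
    {u : Fin 2 → ℝ} (hu : Wd D.rho u) (h : NJ D u) : False := by
  obtain ⟨c, hc, hu⟩ := hu
  obtain ⟨δ, hδ, hs⟩ := sep D hg
  obtain ⟨m₀, ⟨s₀⟩⟩ := exists_St (D := D) hg u
  -- the bound
  have hdet : ∀ p q : ℤ, p < q → q < p + 2 * g →
      0 < dt (D.nu p + D.n p) (D.nu q + D.n q) := by
    intro p q h1 h2
    obtain ⟨d1, d2, d3, d4⟩ := dets D hg h1 h2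
    have P := D.pol_nu (g := g) (by omega)
    have p1 : 0 < dt (D.nu p) (D.nu q) := P.pos _ _ h1 (by push_cast; omega)
    have al := (al_pos D hg q).le
    have am := (al_pos D hg p).le
    have p2 : 0 ≤ dt (D.nu p) (D.nu (q + 1)) := by
      rcases (show q + 1 ≤ p + 2 * g by omega).eq_or_lt with h3 | h3
      · rw [h3, D.nu_per, dt_neg_right, dt_self, neg_zero]
      · exact (P.pos _ _ (by omega) (by push_cast; omega)).le
    have p3 : 0 ≤ dt (D.nu p) (D.n q) := by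
      rw [Dat.n, dt_smul_right, dt_add_right, dt_smul_right]
      have h3 := mul_nonneg al p1.le
      exact mul_nonneg (lei_pos D q).le (by linarith)
    have p4 : 0 ≤ dt (D.n p) (D.nu q) := by
      rw [Dat.n, dt_smul_left, dt_add_left, dt_smul_left]
      have h3 := mul_nonneg am p1.le
      have h4 : 0 ≤ dt (D.nu (p + 1)) (D.nu q) := by
        rcases (show p + 1 ≤ q by omega).eq_or_lt with h5 | h5
        · rw [h5, dt_self]
        · exact (P.pos _ _ h5 (by push_cast; omega)).le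
      exact mul_nonneg (lei_pos D p).le (by linarith)
    rw [dt_add_left, dt_add_right, dt_add_right]
    linarith
  obtain ⟨C, hC⟩ : ∃ C : ℝ, ∀ p : ℤ, (p = m₀ + 1 ∨ p = m₀ + 2 ∨ p = m₀ + 3) →
      (dt u (D.nu p + D.n p)) ^ 2 / (δ * c) ≤ C := by
    refine ⟨(dt u (D.nu (m₀ + 1) + D.n (m₀ + 1))) ^ 2 / (δ * c) +
      ((dt u (D.nu (m₀ + 2) + D.n (m₀ + 2))) ^ 2 / (δ * c) +
      (dt u (D.nu (m₀ + 3) + D.n (m₀ + 3))) ^ 2 / (δ * c)), ?_⟩
    have q1 : 0 ≤ (dt u (D.nu (m₀ + 1) + D.n (m₀ + 1))) ^ 2 / (δ * c) := by positivity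
    have q2 : 0 ≤ (dt u (D.nu (m₀ + 2) + D.n (m₀ + 2))) ^ 2 / (δ * c) := by positivity
    have q3 : 0 ≤ (dt u (D.nu (m₀ + 3) + D.n (m₀ + 3))) ^ 2 / (δ * c) := by positivity
    rintro p (rfl | rfl | rfl)
    · linarith
    · linarith
    · linarith
  obtain ⟨R1, hR1⟩ := bound_of (hdet (m₀ + 1) (m₀ + 2) (by omega) (by omega)) C
  obtain ⟨R2, hR2⟩ := bound_of (hdet (m₀ + 1) (m₀ + 3) (by omega) (by omega)) C
  obtain ⟨R3, hR3⟩ := bound_of (hdet (m₀ + 2) (m₀ + 3) (by omega) (by omega)) C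
  obtain ⟨R, hRR⟩ : ∃ R, R = max R1 (max R2 R3) := ⟨_, rfl⟩
  have r1 : R1 ≤ R := by rw [hRR]; exact le_max_left _ _
  have r2 : R2 ≤ R := by rw [hRR]; exact (le_max_left _ _).trans (le_max_right _ _)
  have r3 : R3 ≤ R := by rw [hRR]; exact (le_max_right _ _).trans (le_max_right _ _)
  have hb : ∀ s : St D u m₀, ∀ i j, |(D.rho s.x).1 i j| ≤ R := by
    intro s
    have bd : ∀ p : ℤ, (p = m₀ + 1 ∨ p = m₀ + 2 ∨ p = m₀ + 3) → Nd g s.l p →
        nr (ac (D.rho s.x) (D.nu p + D.n p)) ≤ C := by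
      intro p hp h2
      refine (bound1 hg hc hδ hu h hs s ?_ h2).trans (hC p hp)
      exact nd_of_lt (by omega) (by omega)
    have cong : ∀ p q : ℤ, p < q → q < p + 2 * g → ¬ Nd g s.l p → Nd g s.l q := by
      intro p q h1 h2 h3 h4
      apply nd_of_lt h1 h2
      have h5 : (2 * g : ℤ) ∣ p - s.l := not_not.1 h3
      have h6 := h4
      rw [show q - p = (q - s.l) - (p - s.l) by ring]
      exact dvd_sub h6 h5
    by_cases c1 : Nd g s.l (m₀ + 1)
    · by_cases c2 : Nd g s.l (m₀ + 2)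
      · intro i j
        exact (hR1 _ (bd _ (by simp) c1) (bd _ (by simp) c2) i j).trans r1
      · have c3 := cong (m₀ + 2) (m₀ + 3) (by omega) (by omega) c2
        intro i j
        exact (hR2 _ (bd _ (by simp) c1) (bd _ (by simp) c3) i j).trans r2
    · have c2 := cong (m₀ + 1) (m₀ + 2) (by omega) (by omega) c1
      have c3 := cong (m₀ + 1) (m₀ + 3) (by omega) (by omega) c1
      intro i j
      exact (hR3 _ (bd _ (by simp) c2) (bd _ (by simp) c3) i j).trans r3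
  -- the sequence
  choose nx hnx using fun s : St D u m₀ => exists_next hg s
  let sq : ℕ → St D u m₀ := fun n => nx^[n] s₀
  have hsq : ∀ n, sq (n + 1) = nx (sq n) := fun n => Function.iterate_succ_apply' nx n s₀
  have htr : ∀ n k : ℕ, ∃ z, (sq (n + k + 1)).x = z * (sq n).x ∧
      Mp NN (D.rho z) (D.cD (sq n).m) (D.cC (sq (n + k + 1)).l) := by
    intro n k
    induction k with
    | zero =>
      obtain ⟨z, h1, h2⟩ := hnx (sq n)
      refine ⟨z, ?_, ?_⟩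
      · rw [add_zero, hsq]
        exact h1
      · rw [add_zero, hsq]
        exact h2
    | succ k ih =>
      obtain ⟨z, h1, h2⟩ := ih
      obtain ⟨z', h3, h4⟩ := hnx (sq (n + k + 1))
      have e : sq (n + (k + 1) + 1) = nx (sq (n + k + 1)) := hsq (n + k + 1)
      refine ⟨z' * z, ?_, ?_⟩
      · rw [e, h3, h1, mul_assoc]
      · rw [e, map_mul]
        have h5 := h4.comp ((D.Mp_C_D (show 1 ≤ g by omega) (sq (n + k + 1)).h3.symm).comp h2)
        rwa [one_mul] at h5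
  have hF := hfin R
  have hFin : Finite {x : SurfaceGroup g | ∀ i j, |(D.rho x).1 i j| ≤ R} := hF
  obtain ⟨n, n', hne, heq⟩ := Finite.exists_ne_map_eq_of_infinite
    (fun n : ℕ => (⟨(sq n).x, hb (sq n)⟩ : {x : SurfaceGroup g | ∀ i j, |(D.rho x).1 i j| ≤ R}))
  have key : ∀ n n' : ℕ, n < n' → (sq n).x = (sq n').x → False := by
    intro n n' hlt he
    obtain ⟨k, rfl⟩ : ∃ k, n' = n + k + 1 := ⟨n' - n - 1, by omega⟩
    obtain ⟨z, h1, h2⟩ := htr n k
    rw [← he] at h1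
    have hz : z = 1 := by
      have : 1 * (sq n).x = z * (sq n).x := by rw [one_mul]; exact h1
      exact (mul_right_cancel this).symm
    rw [hz, map_one] at h2
    exact not_D_C D hg _ _ h2
  have heq' : (sq n).x = (sq n').x := congrArg Subtype.val heq
  rcases Nat.lt_or_gt_of_ne hne with h1 | h1
  · exact key n n' h1 heq'
  · exact key n' n h1 heq'.symm

end

end Pool.Agent.ToCC
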